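import Mathlib

/-!
The rank of a family of integer vectors does not depend on the field of characteristic zero;
reduction of the codimensions to integer vectors.
-/

set_option autoImplicit false
set_option linter.all false

open Finset Matrix

namespace Pool.Agent.W430.CC

theorem finrank_int_le {F G : Type*} [Field F] [CharZero F] [Field G] [CharZero G]
    {Ω S : Type*} [Finite Ω] [Finite S] (v : Ω → S → ℤ) :
    Module.finrank F (Submodule.span F (Set.range fun ω => (fun s => (v ω s : F)))) ≤
      Module.finrank G (Submodule.span G (Set.range fun ω => (fun s => (v ω s : G)))) := by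
  obtain ⟨κ, a, ha, hs, hl⟩ := exists_linearIndependent' F (fun ω => (fun s => (v ω s : F)))
  have : Finite κ := Finite.of_injective a ha
  have : Fintype κ := Fintype.ofFinite κ
  have h1 : LinearIndependent ℤ (fun i => v (a i)) := by
    rw [← linearIndependent_algebraMap_comp_iff (S := F)]
    exact hl
  have h2 : LinearIndependent G (fun i => (fun s => (v (a i) s : G))) := by
    have := (linearIndependent_algebraMap_comp_iff (S := G)).2 h1
    exact this
  rw [← hs, finrank_span_eq_card hl]
  have h3 := finrank_span_eq_card h2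
  rw [← h3]
  have : Module.Finite G (Submodule.span G (Set.range fun ω => (fun s => (v ω s : G)))) :=
    Module.Finite.span_of_finite G (Set.finite_range _)
  apply Submodule.finrank_mono
  apply Submodule.span_mono
  rintro _ ⟨i, rfl⟩
  exact ⟨a i, rfl⟩

theorem finrank_int_eq {F G : Type*} [Field F] [CharZero F] [Field G] [CharZero G]
    {Ω S : Type*} [Finite Ω] [Finite S] (v : Ω → S → ℤ) :
    Module.finrank F (Submodule.span F (Set.range fun ω => (fun s => (v ω s : F)))) =
      Module.finrank G (Submodule.span G (Set.range fun ω => (fun s => (v ω s : G)))) :=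
  le_antisymm (finrank_int_le v) (finrank_int_le v)

theorem finrank_map_eq_of_ker {F V W W' : Type*} [Field F] [AddCommGroup V] [Module F V]
    [AddCommGroup W] [Module F W] [AddCommGroup W'] [Module F W'] (A : Submodule F V)
    [Module.Finite F A] (f : V →ₗ[F] W) (g : V →ₗ[F] W') (h : ∀ a ∈ A, f a = 0 ↔ g a = 0) :
    Module.finrank F (A.map f) = Module.finrank F (A.map g) := by
  have h1 := LinearMap.finrank_range_add_finrank_ker (f.domRestrict A)
  have h2 := LinearMap.finrank_range_add_finrank_ker (g.domRestrict A)
  have h3 : LinearMap.ker (f.domRestrict A) = LinearMap.ker (g.domRestrict A) := by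
    ext a
    rw [LinearMap.mem_ker, LinearMap.mem_ker]
    exact h a.1 a.2
  rw [LinearMap.range_domRestrict] at h1 h2
  rw [h3] at h1
  omega

/-! ### the codimensions -/

section codim

variable (F : Type*) [Field F] (k n : ℕ)

/-- the monomial function -/
def mon (R : Type*) [CommRing R] (k n : ℕ) (σ : Equiv.Perm (Fin n))
    (x : Fin n → Matrix (Fin k) (Fin k) R) : Matrix (Fin k) (Fin k) R :=
  (List.ofFn (fun i => x (σ i))).prod

/-- the span of the monomial functions -/
def AA : Submodule F ((Fin n → Matrix (Fin k) (Fin k) F) → Matrix (Fin k) (Fin k) F) :=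
  Submodule.span F (Set.range (mon F k n))

instance : Module.Finite F (AA F k n) :=
  Module.Finite.span_of_finite F (Set.finite_range _)

/-- The multilinear functions as a submodule. -/
def ML : Submodule F ((Fin n → Matrix (Fin k) (Fin k) F) → Matrix (Fin k) (Fin k) F) where
  carrier := {f | ∃ g : MultilinearMap F (fun _ : Fin n => Matrix (Fin k) (Fin k) F)
    (Matrix (Fin k) (Fin k) F), f = g}
  add_mem' := by
    rintro _ _ ⟨g, rfl⟩ ⟨g', rfl⟩
    exact ⟨g + g', rfl⟩
  zero_mem' := ⟨0, rfl⟩
  smul_mem' := by
    rintro r _ ⟨g, rfl⟩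
    exact ⟨r • g, rfl⟩

theorem AA_le_ML : AA F k n ≤ ML F k n := by
  unfold AA
  rw [Submodule.span_le]
  rintro _ ⟨σ, rfl⟩
  refine ⟨(MultilinearMap.mkPiAlgebraFin F n (Matrix (Fin k) (Fin k) F)).domDomCongr σ, ?_⟩
  ext x
  rw [MultilinearMap.domDomCongr_apply, MultilinearMap.mkPiAlgebraFin_apply]
  rfl

/-- a multilinear function with values composed with a linear map is determined by its values at
the matrix units -/
theorem eq_zero_of_units {W : Type*} [AddCommGroup W] [Module F W]
    {f : (Fin n → Matrix (Fin k) (Fin k) F) → Matrix (Fin k) (Fin k) F} (hf : f ∈ ML F k n)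
    (θ : Matrix (Fin k) (Fin k) F →ₗ[F] W)
    (h : ∀ w : Fin n → Fin k × Fin k, θ (f (fun i => Matrix.single (w i).1 (w i).2 1)) = 0) :
    ∀ x, θ (f x) = 0 := by
  obtain ⟨g, rfl⟩ := hf
  have h1 : θ.compMultilinearMap g = 0 := by
    refine Module.Basis.ext_multilinear (fun _ => Matrix.stdBasis F (Fin k) (Fin k)) ?_
    intro w
    rw [LinearMap.compMultilinearMap_apply]
    have h2 : (fun i => (Matrix.stdBasis F (Fin k) (Fin k)) (w i)) =
        fun i => Matrix.single (w i).1 (w i).2 1 := by
      ext i : 1
      exact Matrix.stdBasis_eq_single F (w i).1 (w i).2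
    rw [h2, h w]
    rfl
  intro x
  have := congrArg (fun m : MultilinearMap F (fun _ : Fin n => Matrix (Fin k) (Fin k) F) W => m x) h1
  exact this

/-- the integer vectors of the monomials -/
def Dv (σ : Equiv.Perm (Fin n)) : (Fin n → Fin k × Fin k) × (Fin k × Fin k) → ℤ :=
  fun z => mon ℤ k n σ (fun i => Matrix.single (z.1 i).1 (z.1 i).2 1) z.2.1 z.2.2

theorem mon_single (σ : Equiv.Perm (Fin n)) (w : Fin n → Fin k × Fin k) (r s : Fin k) :
    mon F k n σ (fun i => Matrix.single (w i).1 (w i).2 1) r s = (Dv k n σ (w, (r, s)) : F) := by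
  unfold Dv mon
  have h1 : (List.ofFn fun i => Matrix.single (w (σ i)).1 (w (σ i)).2 (1 : F)).prod =
      (Int.castRingHom F).mapMatrix
        (List.ofFn fun i => Matrix.single (w (σ i)).1 (w (σ i)).2 (1 : ℤ)).prod := by
    rw [map_list_prod, List.map_ofFn]
    congr 2
    ext i : 1
    ext a b
    simp [Matrix.single_apply]
  rw [h1]
  rfl

/-- the coordinate map -/
def crd : ((Fin n → Matrix (Fin k) (Fin k) F) → Matrix (Fin k) (Fin k) F) →ₗ[F]
    ((Fin n → Fin k × Fin k) × (Fin k × Fin k) → F) where
  toFun f := fun z => f (fun i => Matrix.single (z.1 i).1 (z.1 i).2 1) z.2.1 z.2.2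
  map_add' _ _ := rfl
  map_smul' _ _ := rfl

theorem finrank_AA :
    Module.finrank F (AA F k n) = Module.finrank F (Submodule.span F
      (Set.range fun σ : Equiv.Perm (Fin n) => (fun s => (Dv k n σ s : F)))) := by
  have h1 := finrank_map_eq_of_ker (AA F k n) LinearMap.id (crd F k n) (by
    intro f hf
    constructor
    · intro h
      have h' : f = 0 := h
      rw [h', map_zero]
    · intro h
      change f = 0
      ext x : 1
      refine eq_zero_of_units F k n (AA_le_ML F k n hf) LinearMap.id ?_ x
      intro w
      ext r s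
      exact congrFun h (w, (r, s)))
  rw [Submodule.map_id] at h1
  rw [h1]
  have e2 : (AA F k n).map (crd F k n) = Submodule.span F
      (Set.range fun σ : Equiv.Perm (Fin n) => (fun s => (Dv k n σ s : F))) := by
    unfold AA
    rw [Submodule.map_span, ← Set.range_comp]
    congr 2
    ext σ z
    exact mon_single F k n σ z.1 z.2.1 z.2.2
  rw [e2]

variable [NeZero k]

/-- a linear map with the scalar matrices as kernel -/
def thet (R : Type*) [CommRing R] (k : ℕ) [NeZero k] :
    Matrix (Fin k) (Fin k) R →ₗ[R] Matrix (Fin k) (Fin k) R where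
  toFun y := y - y 0 0 • 1
  map_add' y y' := by
    rw [Matrix.add_apply, add_smul]
    abel
  map_smul' r y := by
    simp only [Matrix.smul_apply, smul_eq_mul, mul_smul, smul_sub, RingHom.id_apply]

theorem thet_eq_zero (y : Matrix (Fin k) (Fin k) F) :
    thet F k y = 0 ↔ y ∈ Subalgebra.toSubmodule (Subalgebra.center F (Matrix (Fin k) (Fin k) F)) := by
  rw [Subalgebra.mem_toSubmodule]
  constructor
  · intro h
    have h1 : y = y 0 0 • 1 := sub_eq_zero.1 h
    rw [h1]
    exact Subalgebra.smul_mem _ (one_mem _) _
  · intro h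
    rw [Subalgebra.mem_center_iff] at h
    have h2 : y ∈ Set.range (Matrix.scalar (Fin k) : F →+* _) := by
      rw [Matrix.mem_range_scalar_iff_commute_single']
      intro i j
      exact h _
    obtain ⟨t, rfl⟩ := h2
    change Matrix.scalar (Fin k) t - (Matrix.scalar (Fin k) t) 0 0 • 1 = 0
    rw [sub_eq_zero]
    ext i j
    simp [Matrix.scalar_apply, Matrix.diagonal_apply, Matrix.one_apply]

/-- the integer vectors of the monomials modulo scalars -/
def Dw (σ : Equiv.Perm (Fin n)) : (Fin n → Fin k × Fin k) × (Fin k × Fin k) → ℤ :=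
  fun z => Dv k n σ z - Dv k n σ (z.1, (0, 0)) * (if z.2.1 = z.2.2 then 1 else 0)

theorem finrank_quot :
    Module.finrank F (Submodule.span F (Set.range (fun σ : Equiv.Perm (Fin n) =>
              fun x : Fin n → Matrix (Fin k) (Fin k) F =>
                Submodule.mkQ (Subalgebra.toSubmodule (Subalgebra.center F (Matrix (Fin k) (Fin k) F)))
                  (List.ofFn (fun i => x (σ i))).prod))) = Module.finrank F (Submodule.span F
      (Set.range fun σ : Equiv.Perm (Fin n) => (fun s => (Dw k n σ s : F)))) := by
  let f : ((Fin n → Matrix (Fin k) (Fin k) F) → Matrix (Fin k) (Fin k) F) →ₗ[F]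
      ((Fin n → Matrix (Fin k) (Fin k) F) → (Matrix (Fin k) (Fin k) F) ⧸
        (Subalgebra.toSubmodule (Subalgebra.center F (Matrix (Fin k) (Fin k) F)))) :=
    { toFun := fun g x => Submodule.mkQ _ (g x)
      map_add' := by
        intro g g'
        ext x : 1
        exact map_add _ _ _
      map_smul' := by
        intro r g
        ext x : 1
        exact (Submodule.mkQ _).map_smul _ _ }
  let g : ((Fin n → Matrix (Fin k) (Fin k) F) → Matrix (Fin k) (Fin k) F) →ₗ[F]
      ((Fin n → Fin k × Fin k) × (Fin k × Fin k) → F) :=
    { toFun := fun g z => thet F k (g (fun i => Matrix.single (z.1 i).1 (z.1 i).2 1)) z.2.1 z.2.2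
      map_add' := by
        intro g g'
        ext z
        simp only [Pi.add_apply, map_add, Matrix.add_apply]
      map_smul' := by
        intro r g
        ext z
        simp only [Pi.smul_apply, map_smul, Matrix.smul_apply, RingHom.id_apply] }
  have h1 := finrank_map_eq_of_ker (AA F k n) f g (by
    intro a ha
    have e1 : f a = 0 ↔ ∀ x, thet F k (a x) = 0 := by
      constructor
      · intro h x
        rw [thet_eq_zero]
        have := congrFun h x
        exact (Submodule.Quotient.mk_eq_zero _).1 this
      · intro h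
        ext x : 1
        exact (Submodule.Quotient.mk_eq_zero _).2 ((thet_eq_zero F k _).1 (h x))
    rw [e1]
    constructor
    · intro h
      ext z
      change thet F k _ _ _ = 0
      rw [h]
      rfl
    · intro h
      refine eq_zero_of_units F k n (AA_le_ML F k n ha) (thet F k) ?_
      intro w
      ext r s
      exact congrFun h (w, (r, s)))
  have e1 : (AA F k n).map f = Submodule.span F (Set.range (fun σ : Equiv.Perm (Fin n) =>
              fun x : Fin n → Matrix (Fin k) (Fin k) F =>
                Submodule.mkQ (Subalgebra.toSubmodule (Subalgebra.center F (Matrix (Fin k) (Fin k) F)))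
                  (List.ofFn (fun i => x (σ i))).prod)) := by
    unfold AA
    rw [Submodule.map_span, ← Set.range_comp]
    rfl
  have e2 : (AA F k n).map g = Submodule.span F
      (Set.range fun σ : Equiv.Perm (Fin n) => (fun s => (Dw k n σ s : F))) := by
    unfold AA
    rw [Submodule.map_span, ← Set.range_comp]
    congr 2
    ext σ z
    change (mon F k n σ _ - mon F k n σ _ 0 0 • (1 : Matrix (Fin k) (Fin k) F)) z.2.1 z.2.2 = _
    rw [Matrix.sub_apply, Matrix.smul_apply, mon_single, mon_single]
    unfold Dw
    rw [Matrix.one_apply, smul_eq_mul]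
    push_cast
    rfl
  rw [← e1, ← e2]
  exact h1

end codim

end Pool.Agent.W430.CC
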