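import Pool.Agent.W430.CC.Codim
import Pool.Agent.W430.CC.IntFam

/-!
Over the reals the codimensions are the dimensions of the spans of the transitive permutations.
-/

set_option autoImplicit false
set_option linter.all false

open Finset Matrix

namespace Pool.Agent.W430.CC

variable {k : ℕ}

theorem trace_ofFn (n : ℕ) (x : Fin (n + 1) → Matrix (Fin k) (Fin k) ℝ) :
    (List.ofFn x).prod.trace = T (finRotate (n + 1)) x := by
  induction n with
  | zero =>
    unfold T
    rw [← (Equiv.funUnique (Fin 1) (Fin k)).symm.sum_comp]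
    simp [Matrix.trace]
  | succ n ih =>
    let e : Option (Fin (n + 1)) ≃ Fin (n + 2) := finSuccEquivLast.symm
    have h1 : (List.ofFn (sub (Fin.last n) (x ∘ e))).prod = (List.ofFn x).prod := by
      rw [List.ofFn_succ' x, List.ofFn_succ' (fun i : Fin (n + 1) => x i.castSucc),
        List.ofFn_succ' (sub (Fin.last n) (x ∘ e))]
      simp only [List.concat_eq_append, List.prod_append, List.prod_cons, List.prod_nil, mul_one]
      rw [mul_assoc]
      congr 1
      · congr 2
        ext i : 1
        unfold sub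
        rw [if_neg (Fin.castSucc_lt_last i).ne]
        simp [e]
      · unfold sub
        rw [if_pos rfl]
        simp [e]
    rw [← h1, ih, T_sub, T_congr]
    congr 1
    ext i : 1
    rw [Equiv.permCongr_apply]
    induction i using Fin.lastCases with
    | last =>
      have e1 : e.symm (Fin.last (n + 1)) = none := by simp [e]
      rw [e1, ins_none, finRotate_last, finRotate_last]
      simp [e]
    | cast j =>
      have e1 : e.symm (Fin.castSucc j) = some j := by simp [e]
      rw [e1]
      by_cases hj : j = Fin.last n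
      · subst hj
        rw [ins_some_self]
        have e2 : e none = Fin.last (n + 1) := by simp [e]
        rw [e2, finRotate_succ_apply]
        ext
        simp
      · rw [ins_some_of_ne _ hj]
        have e2 : e (some (finRotate (n + 1) j)) = Fin.castSucc (finRotate (n + 1) j) := by
          simp [e]
        rw [e2, finRotate_succ_apply, finRotate_succ_apply]
        ext
        have hj' : j.val < n := by
          have := Fin.lt_last_iff_ne_last.2 hj
          exact this
        rw [Fin.val_castSucc, Fin.val_add_one_of_lt (Fin.lt_last_iff_ne_last.2 hj),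
          Fin.val_add_one_of_lt (by
            rw [Fin.lt_def]
            simp
            omega)]
        simp

theorem trans_finRotate (n : ℕ) : Trans (finRotate n) := by
  intro S hS hinv x
  have hpow : ∀ (i : ℕ) (y : Fin n), y ∈ S → ((finRotate n) ^ i) y ∈ S := by
    intro i
    induction i with
    | zero => intro y hy; exact hy
    | succ i ih =>
      intro y hy
      rw [pow_succ', Equiv.Perm.mul_apply]
      exact hinv _ (ih y hy)
  obtain ⟨y, hy⟩ := hS
  rcases n with _ | _ | n
  · exact x.elim0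
  · rwa [show x = y from Fin.ext (by omega)]
  · have h1 : ∀ z : Fin (n + 2), finRotate (n + 2) z ≠ z := by
      intro z
      rw [← Equiv.Perm.mem_support, support_finRotate]
      exact mem_univ _
    obtain ⟨i, hi⟩ := isCycle_finRotate.exists_pow_eq (h1 y) (h1 x)
    rw [← hi]
    exact hpow i y hy

theorem trans_conj {J : Type*} [Fintype J] [DecidableEq J] {n : ℕ} (hJ : Fintype.card J = n + 1)
    {γ : Equiv.Perm J} (hγ : Trans γ) (j0 : J) :
    ∃ e : Fin (n + 1) ≃ J, e 0 = j0 ∧ ∀ i, e (finRotate (n + 1) i) = γ (e i) := by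
  have hcyc : γ.IsCycleOn (univ : Finset J) := by
    refine ⟨by simp, ?_⟩
    intro x _ y _
    refine hγ {y | γ.SameCycle x y} ⟨x, Equiv.Perm.SameCycle.refl _ _⟩ ?_ y
    intro z hz
    exact Equiv.Perm.sameCycle_apply_right.2 hz
  have hmod : ∀ i j : ℕ, (γ ^ i) j0 = (γ ^ j) j0 ↔ i ≡ j [MOD (n + 1)] := by
    intro i j
    rw [hcyc.pow_apply_eq_pow_apply (mem_univ j0), card_univ, hJ]
  have hinj : Function.Injective (fun i : Fin (n + 1) => (γ ^ (i : ℕ)) j0) := by
    intro i j hij
    have := (hmod i j).1 hij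
    exact Fin.ext (Nat.ModEq.eq_of_lt_of_lt this i.2 j.2)
  have hbij : Function.Bijective (fun i : Fin (n + 1) => (γ ^ (i : ℕ)) j0) :=
    (Fintype.bijective_iff_injective_and_card _).2 ⟨hinj, by rw [Fintype.card_fin, hJ]⟩
  refine ⟨Equiv.ofBijective _ hbij, ?_, ?_⟩
  · simp
  · intro i
    simp only [Equiv.ofBijective_apply]
    rw [← Equiv.Perm.mul_apply, ← pow_succ', hmod, finRotate_succ_apply, Fin.val_add]
    have : (((1 : Fin (n + 1)) : ℕ)) ≡ 1 [MOD (n + 1)] := by
      rw [Fin.val_one', Nat.ModEq, Nat.mod_mod]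
    exact (Nat.mod_modEq _ _).trans (Nat.ModEq.add_left _ this)

/-- the cyclic permutation of a word -/
def gs {n : ℕ} (σ : Equiv.Perm (Fin n)) : Equiv.Perm (Option (Fin n)) :=
  ((finSuccEquiv n).trans (Equiv.optionCongr σ)).permCongr (finRotate (n + 1))

theorem trans_gs {n : ℕ} (σ : Equiv.Perm (Fin n)) : Trans (gs σ) :=
  trans_congr (trans_finRotate _) _

theorem exists_gs {n : ℕ} {γ : Equiv.Perm (Option (Fin n))} (hγ : Trans γ) :
    ∃ σ : Equiv.Perm (Fin n), γ = gs σ := by
  obtain ⟨e, h0, he⟩ := trans_conj (n := n) (by simp) hγ none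
  have h1 : ((finSuccEquiv n).symm.trans e) none = none := by simp [h0]
  refine ⟨Equiv.removeNone ((finSuccEquiv n).symm.trans e), ?_⟩
  unfold gs
  rw [← eq_optionCongr _ h1]
  have h2 : (finSuccEquiv n).trans ((finSuccEquiv n).symm.trans e) = e := by
    ext i : 1
    simp
  rw [h2]
  ext x : 1
  rw [Equiv.permCongr_apply, he, Equiv.apply_symm_apply]

/-- pairing with the additional variable -/
def Lam (k n : ℕ) : ((Fin n → Matrix (Fin k) (Fin k) ℝ) → Matrix (Fin k) (Fin k) ℝ) →ₗ[ℝ]
    ((Option (Fin n) → Matrix (Fin k) (Fin k) ℝ) → ℝ) where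
  toFun f := fun x => (x none * f (fun i => x (some i))).trace
  map_add' f g := by
    ext x
    simp only [Pi.add_apply, mul_add, Matrix.trace_add]
  map_smul' r f := by
    ext x
    simp only [Pi.smul_apply, Matrix.mul_smul, Matrix.trace_smul, RingHom.id_apply]

theorem Lam_apply {n : ℕ} (f : (Fin n → Matrix (Fin k) (Fin k) ℝ) → Matrix (Fin k) (Fin k) ℝ)
    (x : Option (Fin n) → Matrix (Fin k) (Fin k) ℝ) :
    Lam k n f x = (x none * f (fun i => x (some i))).trace := rfl

theorem trace_single_mul' (i j : Fin k) (M : Matrix (Fin k) (Fin k) ℝ) :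
    (Matrix.single i j 1 * M).trace = M j i := by
  rw [Matrix.trace, sum_eq_single i]
  · simp
  · intro b _ hb
    simp [Matrix.single_mul_apply_of_ne _ _ _ _ _ hb]
  · intro h; exact absurd (mem_univ _) h

/-- extension of a tuple of matrices -/
def exM {n : ℕ} (y : Matrix (Fin k) (Fin k) ℝ) (x : Fin n → Matrix (Fin k) (Fin k) ℝ) :
    Option (Fin n) → Matrix (Fin k) (Fin k) ℝ := fun o => o.elim y x

theorem Lam_injective (n : ℕ) : Function.Injective (Lam k n) := by
  intro f g h
  ext x r s
  have h1 := congrFun h (exM (Matrix.single s r 1) x)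
  rw [Lam_apply, Lam_apply] at h1
  change (Matrix.single s r 1 * f x).trace = (Matrix.single s r 1 * g x).trace at h1
  rwa [trace_single_mul', trace_single_mul'] at h1

theorem Lam_mon {n : ℕ} (σ : Equiv.Perm (Fin n)) : Lam k n (mon ℝ k n σ) = T (gs σ) := by
  ext x
  rw [Lam_apply]
  unfold gs
  rw [← T_congr, ← trace_ofFn, List.ofFn_succ, List.prod_cons]
  congr 2

theorem map_AA (n : ℕ) : (AA ℝ k n).map (Lam k n) = FCy k (Option (Fin n)) := by
  unfold AA FCy
  rw [Submodule.map_span, ← Set.range_comp]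
  congr 1
  ext f
  constructor
  · rintro ⟨σ, rfl⟩
    exact ⟨gs σ, trans_gs σ, Lam_mon σ⟩
  · rintro ⟨γ, hγ, rfl⟩
    obtain ⟨σ, rfl⟩ := exists_gs hγ
    exact ⟨σ, Lam_mon σ⟩

theorem finrank_map_of_injective {V W : Type*} [AddCommGroup V] [Module ℝ V] [AddCommGroup W]
    [Module ℝ W] {f : V →ₗ[ℝ] W} (hf : Function.Injective f) (A : Submodule ℝ V) :
    Module.finrank ℝ (A.map f) = Module.finrank ℝ A :=
  (LinearEquiv.finrank_eq (Submodule.equivMapOfInjective f hf A)).symm

theorem finrank_AA_real (n : ℕ) :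
    Module.finrank ℝ (AA ℝ k n) = Module.finrank ℝ (Cy k (Option (Fin n))) := by
  rw [← finrank_map_of_injective (Lam_injective n), map_AA, ← map_Cy,
    finrank_map_of_injective ev_injective]

/-- the central part -/
def Zs (k n : ℕ) : Submodule ℝ (Matrix (Fin n → Fin k) (Fin n → Fin k) ℝ) :=
  (Cy k (Option (Fin n))).comap emb

theorem ev_emb {n : ℕ} (c : Matrix (Fin n → Fin k) (Fin n → Fin k) ℝ)
    (x : Option (Fin n) → Matrix (Fin k) (Fin k) ℝ) :
    ev (emb c) x = (x none).trace * ev c (fun i => x (some i)) := by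
  rw [ev_apply, ev_apply, sum_ex, Matrix.trace, sum_mul]
  refine sum_congr rfl fun z _ => ?_
  rw [mul_sum]
  refine sum_congr rfl fun a _ => ?_
  rw [sum_ex, sum_eq_single z, mul_sum]
  · refine sum_congr rfl fun b _ => ?_
    rw [emb_apply, if_pos rfl, Fintype.prod_option]
    simp only [ex_none, ex_some, Matrix.diag_apply]
    ring
  · intro z' _ hz'
    refine sum_eq_zero fun b _ => ?_
    rw [emb_apply, if_neg hz'.symm, zero_mul]
  · intro h; exact absurd (mem_univ _) h

theorem emb_injective {J : Type*} [Fintype J] [DecidableEq J] (hk : 1 ≤ k) : Function.Injective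
    (emb : Matrix (J → Fin k) (J → Fin k) ℝ →ₗ[ℝ] _) := by
  intro c d h
  ext a b
  have h1 := congrFun (congrFun h (ex ⟨0, hk⟩ a)) (ex ⟨0, hk⟩ b)
  rw [emb_apply, emb_apply, if_pos rfl, if_pos rfl] at h1
  exact h1

/-- central valued functions -/
def Cen (k n : ℕ) : Submodule ℝ
    ((Fin n → Matrix (Fin k) (Fin k) ℝ) → Matrix (Fin k) (Fin k) ℝ) where
  carrier := {f | ∀ x, f x ∈
    Subalgebra.toSubmodule (Subalgebra.center ℝ (Matrix (Fin k) (Fin k) ℝ))}
  add_mem' hf hg x := add_mem (hf x) (hg x)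
  zero_mem' x := zero_mem _
  smul_mem' r f hf x := Submodule.smul_mem _ _ (hf x)

theorem map_Cen (hk : 1 ≤ k) (n : ℕ) :
    (AA ℝ k n ⊓ Cen k n).map (Lam k n) = ((Zs k n).map emb).map ev := by
  have : NeZero k := ⟨by omega⟩
  apply le_antisymm
  · rintro _ ⟨f, ⟨hf, hcen⟩, rfl⟩
    have h1 : Lam k n f ∈ FCy k (Option (Fin n)) := by
      rw [← map_AA]
      exact Submodule.mem_map_of_mem hf
    rw [← map_Cy] at h1
    obtain ⟨c, hc, h2⟩ := h1
    have h3 : ∀ x, f x = f x 0 0 • 1 := fun x =>
      sub_eq_zero.1 ((thet_eq_zero ℝ k (f x)).2 (hcen x))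
    let c' : Matrix (Fin n → Fin k) (Fin n → Fin k) ℝ := fun a b =>
      f (fun i => Matrix.single (a i) (b i) 1) 0 0
    have h4 : c = emb c' := by
      ext A B
      obtain ⟨z, a, rfl⟩ := ex_surj A
      obtain ⟨z', b, rfl⟩ := ex_surj B
      rw [← ev_single c, h2, emb_apply, Lam_apply]
      simp only [ex_none, ex_some]
      rw [h3, trace_single_mul', Matrix.smul_apply, Matrix.one_apply, smul_eq_mul]
      by_cases hz : z = z'
      · subst hz
        simp [c']
      · rw [if_neg hz, if_neg (fun h => hz h.symm), mul_zero]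
    refine ⟨emb c', ⟨c', ?_, rfl⟩, ?_⟩
    · change emb c' ∈ Cy k (Option (Fin n))
      rw [← h4]
      exact hc
    · rw [← h4, h2]
  · rintro _ ⟨_, ⟨c', hc', rfl⟩, rfl⟩
    have h1 : ev (emb c') ∈ FCy k (Option (Fin n)) := mem_Cy.1 hc'
    rw [← map_AA] at h1
    obtain ⟨f, hf, h2⟩ := h1
    refine ⟨f, ⟨hf, ?_⟩, h2⟩
    intro x
    have h3 : f x = ev c' x • 1 := by
      ext r s
      have h4 := congrFun h2 (exM (Matrix.single s r 1) x)
      rw [Lam_apply, ev_emb] at h4
      change (Matrix.single s r 1 * f x).trace = (Matrix.single s r 1).trace * ev c' x at h4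
      rw [trace_single_mul'] at h4
      rw [h4, Matrix.smul_apply, Matrix.one_apply, smul_eq_mul, mul_comm]
      congr 1
      by_cases h : r = s
      · subst h
        simp
      · rw [if_neg h, Matrix.trace_single_eq_of_ne _ _ _ (fun h' => h h'.symm)]
    rw [h3, Subalgebra.mem_toSubmodule]
    exact Subalgebra.smul_mem _ (one_mem _) _

theorem finrank_quot_real (hk : 1 ≤ k) (n : ℕ) :
    Module.finrank ℝ (Submodule.span ℝ (Set.range (fun σ : Equiv.Perm (Fin n) =>
              fun x : Fin n → Matrix (Fin k) (Fin k) ℝ =>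
                Submodule.mkQ (Subalgebra.toSubmodule (Subalgebra.center ℝ (Matrix (Fin k) (Fin k) ℝ)))
                  (List.ofFn (fun i => x (σ i))).prod))) + Module.finrank ℝ (Zs k n) =
      Module.finrank ℝ (Cy k (Option (Fin n))) := by
  let f : ((Fin n → Matrix (Fin k) (Fin k) ℝ) → Matrix (Fin k) (Fin k) ℝ) →ₗ[ℝ]
      ((Fin n → Matrix (Fin k) (Fin k) ℝ) → (Matrix (Fin k) (Fin k) ℝ) ⧸
        (Subalgebra.toSubmodule (Subalgebra.center ℝ (Matrix (Fin k) (Fin k) ℝ)))) :=
    { toFun := fun g x => Submodule.mkQ _ (g x)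
      map_add' := by
        intro g g'
        ext x : 1
        exact map_add _ _ _
      map_smul' := by
        intro r g
        ext x : 1
        exact (Submodule.mkQ _).map_smul _ _ }
  have e1 : (AA ℝ k n).map f = Submodule.span ℝ (Set.range (fun σ : Equiv.Perm (Fin n) =>
              fun x : Fin n → Matrix (Fin k) (Fin k) ℝ =>
                Submodule.mkQ (Subalgebra.toSubmodule (Subalgebra.center ℝ (Matrix (Fin k) (Fin k) ℝ)))
                  (List.ofFn (fun i => x (σ i))).prod)) := by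
    unfold AA
    rw [Submodule.map_span, ← Set.range_comp]
    rfl
  have h1 := LinearMap.finrank_range_add_finrank_ker (f.domRestrict (AA ℝ k n))
  rw [LinearMap.range_domRestrict, e1] at h1
  have h2 : (LinearMap.ker (f.domRestrict (AA ℝ k n))).map (AA ℝ k n).subtype =
      AA ℝ k n ⊓ Cen k n := by
    ext g
    constructor
    · rintro ⟨g, hg, rfl⟩
      refine ⟨g.2, ?_⟩
      intro x
      have := congrFun (LinearMap.mem_ker.1 hg) x
      exact (Submodule.Quotient.mk_eq_zero _).1 this
    · rintro ⟨hg, hcen⟩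
      refine ⟨⟨g, hg⟩, ?_, rfl⟩
      apply LinearMap.mem_ker.2
      ext x : 1
      exact (Submodule.Quotient.mk_eq_zero _).2 (hcen x)
  have h3 : Module.finrank ℝ (LinearMap.ker (f.domRestrict (AA ℝ k n))) =
      Module.finrank ℝ (Zs k n) := by
    rw [← finrank_map_of_injective (Submodule.injective_subtype (AA ℝ k n)), h2,
      ← finrank_map_of_injective (Lam_injective n), map_Cen hk,
      finrank_map_of_injective ev_injective, finrank_map_of_injective (emb_injective hk)]
  rw [h3, finrank_AA_real] at h1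
  exact h1

theorem ptr_emb {J : Type*} [Fintype J] [DecidableEq J]
    (c : Matrix (J → Fin k) (J → Fin k) ℝ) : ptr (emb c) = (k : ℝ) • c := by
  ext a b
  rw [ptr_apply, Matrix.smul_apply]
  simp only [emb_apply, if_true, sum_const, card_univ, Fintype.card_fin, nsmul_eq_mul,
    smul_eq_mul]

theorem Zs_le (hk : 1 ≤ k) (n : ℕ) : Zs k n ≤ PP k (Fin n) := by
  intro c hc
  have h1 : ptr (emb c) ∈ PP k (Fin n) := ptr_mem (Cy_le_PP hc)
  rw [ptr_emb] at h1
  have h2 := Submodule.smul_mem _ ((k : ℝ)⁻¹) h1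
  have hk0 : (k : ℝ) ≠ 0 := by
    have : k ≠ 0 := by omega
    exact_mod_cast this
  rwa [smul_smul, inv_mul_cancel₀ hk0, one_smul] at h2

theorem finrank_Zs_le (hk : 1 ≤ k) (n : ℕ) : Module.finrank ℝ (Zs k n) ≤ pp k n :=
  Submodule.finrank_mono (Zs_le hk n)

theorem le_finrank_Zs (hk : 2 ≤ k) (n : ℕ) : pp k n ≤ Module.finrank ℝ (Zs k n) + kap k n := by
  obtain ⟨c, hc⟩ := exists_trans (Fin k × Fin k)
  have h1 : UU (hT c) (Fin n) ≤ Zs k n := fun u hu => emb_UU (by omega) hc _ hu
  have h2 := Submodule.finrank_mono h1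
  have h3 := pp_le_UU hk c n
  omega

theorem finrank_Cy_le (n : ℕ) : Module.finrank ℝ (Cy k (Option (Fin n))) ≤ pp k (n + 1) := by
  have h1 := Submodule.finrank_mono (Cy_le_PP (k := k) (J := Option (Fin n)))
  rw [finrank_PP] at h1
  simpa using h1

theorem le_finrank_Cy (hk : 2 ≤ k) (n : ℕ) :
    pp k (n + 1) ≤ Module.finrank ℝ (Cy k (Option (Fin n))) + kap k (n + 1) := by
  obtain ⟨c, hc⟩ := exists_trans (Fin k × Fin k)
  have h1 := Submodule.finrank_mono (UU_le_Cy (by omega) hc (Fin (n + 1)))
  have h2 := pp_le_UU hk c (n + 1)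
  have h3 := finrank_Cy_congr (k := k) (finSuccEquiv n)
  omega

end Pool.Agent.W430.CC
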