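import Mathlib

/-!
Sequences: log-convex sequences of given growth have convergent ratios; the final squeeze.
-/

set_option autoImplicit false
set_option linter.all false

open Filter Topology

namespace Pool.Agent.W430.CC

theorem pow_div_poly_tendsto {r : ℝ} (hr : 1 < r) (m : ℕ) :
    Tendsto (fun n : ℕ => ((n : ℝ) + 1) ^ m / r ^ n) atTop (𝓝 0) := by
  have h1 := tendsto_pow_const_div_const_pow_of_one_lt m hr
  have h2 : Tendsto (fun n : ℕ => (((n + 1 : ℕ) : ℝ)) ^ m / r ^ (n + 1) * r) atTop (𝓝 (0 * r)) :=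
    ((tendsto_add_atTop_iff_nat 1).2 h1).mul_const r
  rw [zero_mul] at h2
  refine h2.congr fun n => ?_
  have hr0 : r ≠ 0 := by positivity
  push_cast
  rw [pow_succ]
  field_simp

theorem ratio_tendsto (p : ℕ → ℝ) (hp : ∀ n, 0 < p n) (hlc : ∀ n, p (n + 1) ^ 2 ≤ p n * p (n + 2))
    (h0 : p 0 ≤ 1) (N : ℝ) (hN : 0 < N) (m : ℕ) (hlow : ∀ n : ℕ, N ^ n ≤ p n * ((n : ℝ) + 1) ^ m)
    (hup : ∀ n, p n ≤ N ^ n) : Tendsto (fun n => p (n + 1) / p n) atTop (𝓝 N) := by
  set r : ℕ → ℝ := fun n => p (n + 1) / p n with hr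
  have hrpos : ∀ n, 0 < r n := fun n => div_pos (hp _) (hp _)
  have hmono : Monotone r := by
    refine monotone_nat_of_le_succ fun n => ?_
    rw [hr]
    simp only
    rw [div_le_div_iff₀ (hp _) (hp _)]
    nlinarith [hlc n]
  have hgrow : ∀ n j, p n * r n ^ j ≤ p (n + j) := by
    intro n j
    induction j with
    | zero => simp
    | succ j ih =>
      have h1 : p (n + (j + 1)) = p (n + j) * r (n + j) := by
        rw [hr]
        simp only
        rw [mul_div_cancel₀ _ (hp _).ne']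
        rfl
      rw [h1, pow_succ, ← mul_assoc]
      have h2 : r n ≤ r (n + j) := hmono (Nat.le_add_right _ _)
      exact mul_le_mul ih h2 (hrpos n).le (hp _).le
  have hrN : ∀ n, r n ≤ N := by
    intro n
    by_contra hcon
    push Not at hcon
    have h1 : 1 < r n / N := by rwa [one_lt_div hN]
    have h2 := tendsto_pow_atTop_atTop_of_one_lt h1
    obtain ⟨j, hj⟩ := (h2.eventually_gt_atTop (N ^ n / p n)).exists
    have h3 := (hgrow n j).trans (hup (n + j))
    rw [pow_add] at h3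
    rw [div_pow, div_lt_div_iff₀ (hp _) (pow_pos hN _)] at hj
    linarith
  have hL := tendsto_atTop_ciSup hmono ⟨N, by rintro _ ⟨n, rfl⟩; exact hrN n⟩
  set L := ⨆ n, r n with hLdef
  have hrL : ∀ n, r n ≤ L := fun n => le_ciSup (f := r) ⟨N, by rintro _ ⟨n, rfl⟩; exact hrN n⟩ n
  have hLN : L ≤ N := ciSup_le hrN
  have hLpos : 0 < L := (hrpos 0).trans_le (hrL 0)
  have hpL : ∀ n, p n ≤ L ^ n := by
    intro n
    induction n with
    | zero => simpa using h0
    | succ n ih =>
      have h1 : p (n + 1) = p n * r n := by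
        rw [hr]
        simp only
        rw [mul_div_cancel₀ _ (hp _).ne']
      rw [h1, pow_succ]
      exact mul_le_mul ih (hrL n) (hrpos n).le (pow_pos hLpos n).le
  have hNL : N ≤ L := by
    by_contra hcon
    push Not at hcon
    have h1 : 1 < N / L := by rwa [one_lt_div hLpos]
    have h2 := pow_div_poly_tendsto h1 m
    obtain ⟨n, hn⟩ := (h2.eventually (gt_mem_nhds zero_lt_one)).exists
    rw [div_lt_one (by positivity), div_pow, lt_div_iff₀ (pow_pos hLpos n)] at hn
    have h3 := hlow n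
    have h4 : p n * ((n : ℝ) + 1) ^ m ≤ L ^ n * ((n : ℝ) + 1) ^ m := by
      gcongr
      exact hpL n
    nlinarith
  have hEq : L = N := le_antisymm hLN hNL
  rw [← hEq]
  exact hL

/-- The final squeeze. -/
theorem final_squeeze (p : ℕ → ℝ) (hp : ∀ n, 0 < p n) (N : ℝ) (hN : 0 < N)
    (hratio : Tendsto (fun n => p (n + 1) / p n) atTop (𝓝 N))
    (κ : ℕ → ℝ) (hκ : Tendsto (fun n => κ n / p n) atTop (𝓝 0))
    (c z : ℕ → ℝ) (hc1 : ∀ n, c n ≤ p (n + 1)) (hc2 : ∀ᶠ n in atTop, p (n + 1) - κ (n + 1) ≤ c n)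
    (hz1 : ∀ n, z n ≤ p n) (hz2 : ∀ᶠ n in atTop, p n - κ n ≤ z n) :
    Tendsto (fun n => (c n - z n) / c n) atTop (𝓝 (1 - 1 / N)) := by
  have hcp : Tendsto (fun n => c n / p (n + 1)) atTop (𝓝 1) := by
    have h1 : Tendsto (fun n => 1 - κ (n + 1) / p (n + 1)) atTop (𝓝 (1 - 0)) :=
      tendsto_const_nhds.sub ((tendsto_add_atTop_iff_nat 1).2 hκ)
    rw [sub_zero] at h1
    refine tendsto_of_tendsto_of_tendsto_of_le_of_le' h1 tendsto_const_nhds ?_ ?_
    · filter_upwards [hc2] with n hn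
      rw [le_div_iff₀ (hp _), sub_mul, div_mul_cancel₀ _ (hp _).ne', one_mul]
      exact hn
    · exact Eventually.of_forall fun n => (div_le_one (hp _)).2 (hc1 n)
  have hzp : Tendsto (fun n => z n / p n) atTop (𝓝 1) := by
    have h1 : Tendsto (fun n => 1 - κ n / p n) atTop (𝓝 (1 - 0)) :=
      tendsto_const_nhds.sub hκ
    rw [sub_zero] at h1
    refine tendsto_of_tendsto_of_tendsto_of_le_of_le' h1 tendsto_const_nhds ?_ ?_
    · filter_upwards [hz2] with n hn
      rw [le_div_iff₀ (hp _), sub_mul, div_mul_cancel₀ _ (hp _).ne', one_mul]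
      exact hn
    · exact Eventually.of_forall fun n => (div_le_one (hp _)).2 (hz1 n)
  have hcpos : ∀ᶠ n in atTop, 0 < c n := by
    filter_upwards [hcp.eventually (lt_mem_nhds zero_lt_one)] with n hn
    rwa [lt_div_iff₀ (hp _), zero_mul] at hn
  have hzc : Tendsto (fun n => z n / c n) atTop (𝓝 (1 / N)) := by
    have h1 : Tendsto (fun n => z n / p n / (c n / p (n + 1)) / (p (n + 1) / p n)) atTop
        (𝓝 (1 / 1 / N)) := (hzp.div hcp one_ne_zero).div hratio hN.ne'
    rw [div_one] at h1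
    refine h1.congr' ?_
    filter_upwards [hcpos] with n hn
    have h2 := (hp n).ne'
    have h3 := (hp (n + 1)).ne'
    field_simp
  have h1 : Tendsto (fun n => 1 - z n / c n) atTop (𝓝 (1 - 1 / N)) := tendsto_const_nhds.sub hzc
  refine h1.congr' ?_
  filter_upwards [hcpos] with n hn
  rw [sub_div, div_self hn.ne']

end Pool.Agent.W430.CC
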