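import Pool.Agent.W430.CC.LogConv

/-!
The growth of `dim P_n`: it is log-convex and at least `k^(2n) / (n+1)^(k^2)`, so the quotients of
consecutive members tend to `k^2`.
-/

set_option autoImplicit false
set_option linter.all false

open Finset Matrix

namespace Pool.Agent.W430.CC

variable {k : ℕ} {J : Type*} [Fintype J] [DecidableEq J]

/-- the number of positions with given entry -/
def cnt {β : Type*} [DecidableEq β] (w : J → β) (p : β) : Fin (Fintype.card J + 1) :=
  ⟨Fintype.card {j // w j = p}, Nat.lt_succ_of_le (Fintype.card_subtype_le _)⟩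

theorem exists_perm_of_cnt {β : Type*} [DecidableEq β] {w w' : J → β} (h : cnt w = cnt w') :
    ∃ s : Equiv.Perm J, w' ∘ s = w := by
  have h1 : ∀ p, Fintype.card {j // w j = p} = Fintype.card {j // w' j = p} := by
    intro p
    have := congrFun h p
    exact congrArg Fin.val this
  refine ⟨Equiv.ofFiberEquiv (f := w) (g := w') fun p => Fintype.equivOfCardEq (h1 p), ?_⟩
  ext j
  exact Equiv.ofFiberEquiv_map _ _

theorem sq_le_finrank :
    ((k : ℝ) ^ (Fintype.card J)) ^ 2 ≤ Module.finrank ℝ (PP k J) *
      ((Fintype.card J + 1 : ℕ) : ℝ) ^ (k * k) := by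
  classical
  let C : Submodule ℝ (Matrix (J → Fin k) (J → Fin k) ℝ) :=
    { carrier := {c | ∀ b ∈ PP k J, b * c = c * b}
      add_mem' := by
        intro c c' hc hc' b hb
        rw [mul_add, add_mul, hc b hb, hc' b hb]
      zero_mem' := by
        intro b _
        rw [mul_zero, zero_mul]
      smul_mem' := by
        intro r c hc b hb
        rw [Matrix.mul_smul, Matrix.smul_mul, hc b hb] }
  have hG := lemG (PP k J) C one_mem_PP (fun a ha b hb => mul_mem_PP ha hb)
    (fun a ha => transpose_mem_PP ha) (fun c hc => hc)
  have h1 : (Fintype.card (J → Fin k) : ℝ) = (k : ℝ) ^ (Fintype.card J) := by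
    rw [Fintype.card_fun, Fintype.card_fin]
    push_cast
    rfl
  rw [h1] at hG
  refine hG.trans ?_
  have h2 : Module.finrank ℝ C ≤ (Fintype.card J + 1) ^ (k * k) := by
    let g : C →ₗ[ℝ] ((Fin k × Fin k → Fin (Fintype.card J + 1)) → ℝ) :=
      { toFun := fun c N => if h : ∃ w : J → Fin k × Fin k, cnt w = N then
          c.1 (fun j => (h.choose j).1) (fun j => (h.choose j).2) else 0
        map_add' := by
          intro c c'
          ext N
          simp only [Pi.add_apply]
          split_ifs
          · rfl
          · rw [add_zero]
        map_smul' := by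
          intro r c
          ext N
          simp only [Pi.smul_apply, RingHom.id_apply]
          split_ifs
          · rfl
          · rw [smul_zero] }
    have hg : Function.Injective g := by
      rw [← LinearMap.ker_eq_bot, LinearMap.ker_eq_bot']
      intro c hc
      apply Subtype.ext
      ext a b
      have h3 : ∃ w : J → Fin k × Fin k, cnt w = cnt (fun j => (a j, b j)) := ⟨_, rfl⟩
      have h4 : g c (cnt (fun j => (a j, b j))) =
          c.1 (fun j => (h3.choose j).1) (fun j => (h3.choose j).2) := dif_pos h3
      rw [hc] at h4
      obtain ⟨s, hs⟩ := exists_perm_of_cnt h3.choose_spec.symm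
      -- c is invariant under permutations
      have h5 : ∀ (a b : J → Fin k), c.1 (a ∘ s) (b ∘ s) = c.1 a b := by
        intro a b
        have h6 := congrFun (congrFun (c.2 (rho k s) (rho_mem s)) a) (b ∘ s)
        rw [Matrix.mul_apply, Matrix.mul_apply] at h6
        have e1 : ∑ x, rho k s a x * c.1 x (b ∘ s) = c.1 (a ∘ s) (b ∘ s) := by
          simp only [rho, ite_mul, one_mul, zero_mul, Finset.sum_ite_eq', mem_univ, if_true]
        have e2 : ∑ x, c.1 a x * rho k s x (b ∘ s) = c.1 a b := by
          have e3 : ∀ x : J → Fin k, rho k s x (b ∘ s) = if x = b then 1 else 0 := by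
            intro x
            simp only [rho]
            congr 1
            rw [eq_iff_iff]
            constructor
            · intro h
              exact ((Equiv.surjective s).injective_comp_right h).symm
            · rintro rfl; rfl
          simp only [e3, mul_ite, mul_one, mul_zero, Finset.sum_ite_eq', mem_univ, if_true]
        rw [e1, e2] at h6
        exact h6
      have h7 : (fun j => (h3.choose j).1) ∘ s = a := by
        ext j
        have := congrFun hs j
        simp only [Function.comp_apply] at this ⊢
        rw [this]
      have h8 : (fun j => (h3.choose j).2) ∘ s = b := by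
        ext j
        have := congrFun hs j
        simp only [Function.comp_apply] at this ⊢
        rw [this]
      have h9 := h5 (fun j => (h3.choose j).1) (fun j => (h3.choose j).2)
      rw [h7, h8, ← h4] at h9
      exact h9
    have h10 := LinearMap.finrank_le_finrank_of_injective hg
    rw [Module.finrank_fintype_fun_eq_card, Fintype.card_fun, Fintype.card_prod,
      Fintype.card_fin, Fintype.card_fin] at h10
    exact h10
  gcongr
  exact_mod_cast h2

/-- relabelling the factors -/
theorem finrank_PP_congr {J' : Type*} [Fintype J'] [DecidableEq J'] (e : J ≃ J') :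
    Module.finrank ℝ (PP k J) = Module.finrank ℝ (PP k J') := by
  let E : (J → Fin k) ≃ (J' → Fin k) := e.arrowCongr (Equiv.refl _)
  let L := Matrix.reindexLinearEquiv ℝ ℝ E E
  have h1 : ∀ s : Equiv.Perm J, L (rho k s) = rho k (e.permCongr s) := by
    intro s
    ext a b
    change rho k s (E.symm a) (E.symm b) = _
    simp only [rho]
    congr 1
    rw [eq_iff_iff]
    constructor
    · intro h
      ext j'
      have := congrFun h (e.symm j')
      simpa [E, Equiv.permCongr_apply] using congrArg Fin.val this
    · intro h
      ext j
      have := congrFun h (e j)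
      simpa [E, Equiv.permCongr_apply] using congrArg Fin.val this
  have h2 : (PP k J).map (L : _ →ₗ[ℝ] _) = PP k J' := by
    unfold PP
    rw [Submodule.map_span]
    congr 1
    ext x
    constructor
    · rintro ⟨_, ⟨s, rfl⟩, rfl⟩
      exact ⟨e.permCongr s, (h1 s).symm⟩
    · rintro ⟨t, rfl⟩
      refine ⟨rho k (e.permCongr.symm t), ⟨_, rfl⟩, ?_⟩
      have := h1 (e.permCongr.symm t)
      rw [Equiv.apply_symm_apply] at this
      exact this
  rw [← h2]
  exact (LinearEquiv.finrank_map_eq L _).symm

variable (k) in
/-- the dimension of the span of the permutations of `n` factors -/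
noncomputable def pp (n : ℕ) : ℕ := Module.finrank ℝ (PP k (Fin n))

theorem finrank_PP (J : Type*) [Fintype J] [DecidableEq J] :
    Module.finrank ℝ (PP k J) = pp k (Fintype.card J) :=
  finrank_PP_congr (Fintype.equivFin J)

theorem pp_logconvex (n : ℕ) : (pp k (n + 1) : ℝ) ^ 2 ≤ pp k n * pp k (n + 2) := by
  have h := finrank_PP_sq_le (k := k) (I := Fin n)
  rw [finrank_PP, finrank_PP, finrank_PP] at h
  simpa using h

theorem pp_lower (n : ℕ) : ((k : ℝ) ^ n) ^ 2 ≤ pp k n * ((n : ℝ) + 1) ^ (k * k) := by
  have h := sq_le_finrank (k := k) (J := Fin n)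
  rw [finrank_PP] at h
  simpa using h

theorem pp_zero : pp k 0 ≤ 1 := by
  unfold pp
  have h := Submodule.finrank_le (PP k (Fin 0))
  rw [Module.finrank_matrix] at h
  simpa using h

end Pool.Agent.W430.CC
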