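import Mathlib

/-!
Tensors all of whose contractions with a fixed nonzero tensor vanish form a small space.
-/

set_option autoImplicit false
set_option linter.all false

open Finset

namespace Pool.Agent.W430.CC

/-- put the letters `u` at the positions `e` of the word `r` -/
noncomputable def merge {L M J : Type*} (e : M → J) (u : M → L) (r : J → L) : J → L :=
  open Classical in fun j => if h : ∃ i, e i = j then u h.choose else r j

theorem merge_apply {L M J : Type*} {e : M → J} (he : Function.Injective e) (u : M → L)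
    (r : J → L) (i : M) : merge e u r (e i) = u i := by
  have h : ∃ i', e i' = e i := ⟨i, rfl⟩
  unfold merge
  rw [dif_pos h]
  exact congrArg u (he h.choose_spec)

theorem merge_apply_of_notMem {L M J : Type*} {e : M → J} (u : M → L)
    (r : J → L) {j : J} (h : ∀ i, e i ≠ j) : merge e u r j = r j := by
  unfold merge
  rw [dif_neg]
  rintro ⟨i, hi⟩
  exact h i hi

theorem merge_eq {L M J : Type*} {e : M → J} (he : Function.Injective e) {u : M → L}
    {r w : J → L} (h1 : ∀ i, w (e i) = u i) (h2 : ∀ j, (∀ i, e i ≠ j) → w j = r j) :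
    merge e u r = w := by
  ext j
  by_cases h : ∃ i, e i = j
  · obtain ⟨i, rfl⟩ := h
    rw [merge_apply he, h1]
  · push Not at h
    rw [merge_apply_of_notMem u r h, h2 j h]

variable {L : Type*} [Fintype L] [DecidableEq L]

/-- the tensors all of whose contractions with `h` along increasing positions vanish -/
def KK (n m : ℕ) (h : (Fin m → L) → ℝ) : Submodule ℝ ((Fin n → L) → ℝ) where
  carrier := {c | ∀ e : Fin m → Fin n, StrictMono e → ∀ r, ∑ u, h u * c (merge e u r) = 0}
  add_mem' := by
    intro c c' hc hc' e he r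
    simp only [Pi.add_apply, mul_add, sum_add_distrib]
    rw [hc e he r, hc' e he r, add_zero]
  zero_mem' := by
    intro e he r
    simp
  smul_mem' := by
    intro t c hc e he r
    have := hc e he r
    simp only [Pi.smul_apply, smul_eq_mul]
    have h2 : ∀ u, h u * (t * c (merge e u r)) = t * (h u * c (merge e u r)) := fun u => by ring
    simp only [h2, ← mul_sum, this, mul_zero]

theorem mem_KK {n m : ℕ} {h : (Fin m → L) → ℝ} {c : (Fin n → L) → ℝ} :
    c ∈ KK n m h ↔ ∀ e : Fin m → Fin n, StrictMono e → ∀ r, ∑ u, h u * c (merge e u r) = 0 :=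
  Iff.rfl

theorem sum_cons {n : ℕ} {M : Type*} [AddCommMonoid M] (f : (Fin (n + 1) → L) → M) :
    ∑ u, f u = ∑ l, ∑ u, f (Fin.cons l u) := by
  rw [← (Fin.consEquiv (fun _ : Fin (n + 1) => L)).sum_comp, Fintype.sum_prod_type]
  rfl

/-- slice at the first letter -/
def slice {n : ℕ} (l : L) : ((Fin (n + 1) → L) → ℝ) →ₗ[ℝ] ((Fin n → L) → ℝ) where
  toFun c := fun w => c (Fin.cons l w)
  map_add' _ _ := rfl
  map_smul' _ _ := rfl

theorem slice_apply {n : ℕ} (l : L) (c : (Fin (n + 1) → L) → ℝ) (w : Fin n → L) :
    slice l c w = c (Fin.cons l w) := rfl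

theorem slice_mem {n m : ℕ} {h : (Fin m → L) → ℝ} {c : (Fin (n + 1) → L) → ℝ}
    (hc : c ∈ KK (n + 1) m h) (l : L) : slice l c ∈ KK n m h := by
  intro e he r
  have he' : StrictMono (Fin.succ ∘ e) := (Fin.strictMono_succ).comp he
  have h1 := hc (Fin.succ ∘ e) he' (Fin.cons l r)
  rw [← h1]
  refine sum_congr rfl fun u _ => ?_
  rw [slice_apply]
  congr 2
  symm
  refine merge_eq he'.injective ?_ ?_
  · intro i
    rw [Function.comp_apply, Fin.cons_succ, merge_apply he.injective]
  · intro j hj
    induction j using Fin.cases with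
    | zero => rfl
    | succ j =>
      rw [Fin.cons_succ, Fin.cons_succ, merge_apply_of_notMem]
      intro i hi
      exact hj i (congrArg Fin.succ hi)

theorem slice_mem' {n m : ℕ} {h : (Fin (m + 1) → L) → ℝ} {c : (Fin (n + 1) → L) → ℝ}
    (hc : c ∈ KK (n + 1) (m + 1) h) (l : L) (hl : ∀ l', l' ≠ l → slice l' c = 0) :
    slice l c ∈ KK n m (slice l h) := by
  intro e he r
  let e' : Fin (m + 1) → Fin (n + 1) := Fin.cons 0 (Fin.succ ∘ e)
  have he' : StrictMono e' := by
    intro i j hij
    induction i using Fin.cases with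
    | zero =>
      induction j using Fin.cases with
      | zero => exact absurd hij (lt_irrefl _)
      | succ j => exact Fin.succ_pos _
    | succ i =>
      induction j using Fin.cases with
      | zero => exact absurd hij (by simp)
      | succ j =>
        have : i < j := by simpa using hij
        change Fin.succ (e i) < Fin.succ (e j)
        exact Fin.succ_lt_succ_iff.2 (he this)
  have h1 := hc e' he' (Fin.cons l r)
  rw [sum_cons] at h1
  have hm : ∀ (l' : L) (u : Fin m → L), merge e' (Fin.cons l' u : Fin (m + 1) → L) (Fin.cons l r) =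
      (Fin.cons l' (merge e u r) : Fin (n + 1) → L) := by
    intro l' u
    refine merge_eq he'.injective ?_ ?_
    · intro i
      induction i using Fin.cases with
      | zero => rfl
      | succ i =>
        change (Fin.cons l' (merge e u r) : Fin (n + 1) → L) (Fin.succ (e i)) = _
        rw [Fin.cons_succ, Fin.cons_succ, merge_apply he.injective]
    · intro j hj
      induction j using Fin.cases with
      | zero => exact absurd rfl (hj 0)
      | succ j =>
        rw [Fin.cons_succ, Fin.cons_succ, merge_apply_of_notMem]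
        intro i hi
        exact hj i.succ (congrArg Fin.succ hi)
  simp only [hm] at h1
  rw [sum_eq_single l] at h1
  · exact h1
  · intro l' _ hl'
    refine sum_eq_zero fun u _ => ?_
    have := congrFun (hl l' hl') (merge e u r)
    rw [slice_apply] at this
    rw [this]
    simp
  · intro h; exact absurd (mem_univ _) h

theorem finrank_KK_zero (n : ℕ) {h : (Fin 0 → L) → ℝ} (hh : h ≠ 0) :
    Module.finrank ℝ (KK n 0 h) = 0 := by
  have h1 : KK n 0 h = ⊥ := by
    rw [eq_bot_iff]
    intro c hc
    rw [Submodule.mem_bot]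
    ext r
    have h2 := hc Fin.elim0 (fun i => i.elim0) r
    rw [Fintype.sum_unique] at h2
    have h3 : merge (Fin.elim0 : Fin 0 → Fin n) default r = r := by
      refine merge_eq (fun i => i.elim0) (fun i => i.elim0) (fun j _ => rfl)
    rw [h3] at h2
    have h4 : h default ≠ 0 := by
      intro h5
      apply hh
      ext u
      rw [Subsingleton.elim u default, h5]
      rfl
    exact (mul_eq_zero.1 h2).resolve_left h4
  rw [h1]
  exact finrank_bot ℝ _

theorem finrank_KK_succ (n m : ℕ) {h : (Fin (m + 1) → L) → ℝ} (l : L) :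
    Module.finrank ℝ (KK (n + 1) (m + 1) h) ≤
      (Fintype.card L - 1) * Module.finrank ℝ (KK n (m + 1) h) +
        Module.finrank ℝ (KK n m (slice l h)) := by
  let Ψ : KK (n + 1) (m + 1) h →ₗ[ℝ] ({l' // l' ≠ l} → KK n (m + 1) h) :=
    LinearMap.pi fun l' => ((slice l'.1).comp (KK (n + 1) (m + 1) h).subtype).codRestrict _
      fun c => slice_mem c.2 l'.1
  have h1 := LinearMap.finrank_range_add_finrank_ker Ψ
  have h2 : Module.finrank ℝ (LinearMap.range Ψ) ≤
      (Fintype.card L - 1) * Module.finrank ℝ (KK n (m + 1) h) := by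
    refine (Submodule.finrank_le _).trans ?_
    rw [Module.finrank_pi_fintype]
    simp only [sum_const, card_univ, smul_eq_mul]
    rw [Fintype.card_subtype_compl, Fintype.card_subtype_eq]
  have h3 : Module.finrank ℝ (LinearMap.ker Ψ) ≤ Module.finrank ℝ (KK n m (slice l h)) := by
    have hk : ∀ c : LinearMap.ker Ψ, ∀ l', l' ≠ l → slice l' c.1.1 = 0 := by
      intro c l' hl'
      have := congrFun (LinearMap.mem_ker.1 c.2) ⟨l', hl'⟩
      exact congrArg Subtype.val this
    let g : LinearMap.ker Ψ →ₗ[ℝ] KK n m (slice l h) :=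
      (((slice l).comp (KK (n + 1) (m + 1) h).subtype).comp (LinearMap.ker Ψ).subtype).codRestrict _
        fun c => slice_mem' c.1.2 l (hk c)
    apply LinearMap.finrank_le_finrank_of_injective (f := g)
    intro c c' hcc
    apply Subtype.ext
    apply Subtype.ext
    ext w
    have h4 : slice l c.1.1 = slice l c'.1.1 := congrArg Subtype.val hcc
    have h5 : ∀ l', slice l' c.1.1 = slice l' c'.1.1 := by
      intro l'
      by_cases h6 : l' = l
      · rw [h6, h4]
      · rw [hk c l' h6, hk c' l' h6]
    have h7 := congrFun (h5 (w 0)) (Fin.tail w)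
    rw [slice_apply, slice_apply, Fin.cons_self_tail] at h7
    exact h7
  omega

/-- The space of the tensors all of whose contractions with `h ≠ 0` vanish is small. -/
theorem finrank_KK_le (hL : 2 ≤ Fintype.card L) (n : ℕ) :
    ∀ (m : ℕ) {h : (Fin m → L) → ℝ}, h ≠ 0 →
      Module.finrank ℝ (KK n m h) ≤ (n + 1) ^ m * (Fintype.card L - 1) ^ n := by
  induction n with
  | zero =>
    intro m h _
    refine (Submodule.finrank_le _).trans ?_
    rw [Module.finrank_fintype_fun_eq_card]
    simp
  | succ n ih =>
    intro m h hh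
    cases m with
    | zero => rw [finrank_KK_zero _ hh]; exact Nat.zero_le _
    | succ m =>
      obtain ⟨u, hu⟩ := Function.ne_iff.1 hh
      have hs : slice (u 0) h ≠ 0 := by
        intro h1
        apply hu
        have := congrFun h1 (Fin.tail u)
        rw [slice_apply, Fin.cons_self_tail] at this
        exact this
      refine (finrank_KK_succ n m (u 0)).trans ?_
      have h1 := ih (m + 1) hh
      have h2 := ih m hs
      obtain ⟨N, hN⟩ : ∃ N, Fintype.card L - 1 = N + 1 := ⟨Fintype.card L - 2, by omega⟩
      rw [hN] at h1 h2 ⊢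
      calc (N + 1) * Module.finrank ℝ (KK n (m + 1) h) + Module.finrank ℝ (KK n m (slice (u 0) h))
          ≤ (N + 1) * ((n + 1) ^ (m + 1) * (N + 1) ^ n) + (n + 1) ^ m * (N + 1) ^ n := by
            gcongr
        _ ≤ (N + 1) * ((n + 1) ^ (m + 1) * (N + 1) ^ n) +
            (N + 1) * ((n + 1) ^ m * (N + 1) ^ n) := by
            exact Nat.add_le_add_left (Nat.le_mul_of_pos_left _ (Nat.succ_pos N)) _
        _ = ((n + 1) ^ m * (n + 1 + 1)) * (N + 1) ^ (n + 1) := by ring
        _ ≤ ((n + 1 + 1) ^ m * (n + 1 + 1)) * (N + 1) ^ (n + 1) := by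
            gcongr
            omega
        _ = _ := by rw [← pow_succ]

end Pool.Agent.W430.CC
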