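import Pool.Agent.W430.CC.Ten
import Pool.Agent.W430.CC.Small
import Pool.Agent.W430.CC.Growth

/-!
The span of the permutations differs little from the span of the conductor times the permutations.
-/

set_option autoImplicit false
set_option linter.all false

open Finset Matrix

namespace Pool.Agent.W430.CC

variable {k : ℕ}

theorem exists_ext_equiv {M J : Type*} [Finite J] (f : M → J) (hf : Function.Injective f) :
    ∃ (n' : ℕ) (e : M ⊕ Fin n' ≃ J), ∀ i, e (Sum.inl i) = f i := by
  classical
  have : Fintype J := Fintype.ofFinite J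
  have : Fintype {j // ∀ i, f i ≠ j} := Fintype.ofFinite _
  obtain ⟨n', ⟨e'⟩⟩ : ∃ n', Nonempty (Fin n' ≃ {j // ∀ i, f i ≠ j}) :=
    ⟨_, ⟨(Fintype.equivFin _).symm⟩⟩
  refine ⟨n', Equiv.ofBijective (Sum.elim f (fun y => (e' y).1)) ⟨?_, ?_⟩, fun i => rfl⟩
  · rintro (x | x) (y | y) h
    · exact congrArg _ (hf h)
    · exact absurd h ((e' y).2 x)
    · exact absurd h.symm ((e' x).2 y)
    · exact congrArg _ (e'.injective (Subtype.ext h))
  · intro j
    by_cases h : ∃ i, f i = j
    · obtain ⟨i, rfl⟩ := h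
      exact ⟨Sum.inl i, rfl⟩
    · push Not at h
      refine ⟨Sum.inr (e'.symm ⟨j, h⟩), ?_⟩
      simp

/-- the span of the products of `h` with permutations -/
def UU {M : Type*} [Fintype M] [DecidableEq M] (h : Matrix (M → Fin k) (M → Fin k) ℝ)
    (J : Type*) [Fintype J] [DecidableEq J] : Submodule ℝ (Matrix (J → Fin k) (J → Fin k) ℝ) :=
  Submodule.span ℝ {x | ∃ (n' : ℕ) (e : M ⊕ Fin n' ≃ J),
    ∃ c' ∈ PP k (Fin n'), x = place e (box h c')}

theorem UU_le_PP {M : Type*} [Fintype M] [DecidableEq M] {h : Matrix (M → Fin k) (M → Fin k) ℝ}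
    (hh : h ∈ PP k M) (J : Type*) [Fintype J] [DecidableEq J] : UU h J ≤ PP k J := by
  unfold UU
  rw [Submodule.span_le]
  rintro _ ⟨n', e, c', hc', rfl⟩
  exact place_mem_PP e (box_mem hh hc')

theorem UU_le_Cy (hk : 1 ≤ k) {c : Equiv.Perm (Fin k × Fin k)} (hc : Trans c)
    (J : Type*) [Fintype J] [DecidableEq J] : UU (hT c) J ≤ Cy k J := by
  unfold UU
  rw [Submodule.span_le]
  rintro _ ⟨n', e, c', hc', rfl⟩
  exact place_mem_Cy e (box_hT_mem hk hc hc')

theorem emb_UU (hk : 1 ≤ k) {c : Equiv.Perm (Fin k × Fin k)} (hc : Trans c)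
    (J : Type*) [Fintype J] [DecidableEq J] {u : Matrix (J → Fin k) (J → Fin k) ℝ}
    (hu : u ∈ UU (hT c) J) : emb u ∈ Cy k (Option J) := by
  induction hu using Submodule.span_induction with
  | mem x hx =>
    obtain ⟨n', e, c', hc', rfl⟩ := hx
    have h1 := place_mem_Cy ((mv (Fin n') k).symm.trans (Equiv.optionCongr e))
      (box_hT_mem hk hc (emb_mem hc'))
    have h2 : emb (place e (box (hT c) c')) =
        place ((mv (Fin n') k).symm.trans (Equiv.optionCongr e)) (box (hT c) (emb c')) := by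
      ext a b
      obtain ⟨z, a, rfl⟩ := ex_surj a
      obtain ⟨z', b, rfl⟩ := ex_surj b
      rw [emb_apply, place_apply, place_apply]
      have e1 : ∀ (z : Fin k) (a : J → Fin k),
          ex z a ∘ ((mv (Fin n') k).symm.trans (Equiv.optionCongr e)) =
            Sum.elim (a ∘ e ∘ Sum.inl) (ex z (a ∘ e ∘ Sum.inr)) := by
        intro z a
        ext o
        rcases o with m | _ | j <;> rfl
      rw [e1, e1, box_apply, emb_apply]
      split_ifs
      · rfl
      · rw [mul_zero]
    rw [h2]
    exact h1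
  | zero => rw [map_zero]; exact zero_mem _
  | add x y _ _ hx hy => rw [map_add]; exact add_mem hx hy
  | smul r x _ hx => rw [map_smul]; exact Submodule.smul_mem _ _ hx

theorem ctr_eq_zero {M : Type*} [Fintype M] [DecidableEq M]
    {h : Matrix (M → Fin k) (M → Fin k) ℝ} (hh : h ∈ PP k M)
    {J : Type*} [Fintype J] [DecidableEq J] {c : Matrix (J → Fin k) (J → Fin k) ℝ}
    (hc : c ∈ PP k J) (h0 : ∀ u ∈ UU h J, ip c u = 0) {n' : ℕ} (e : M ⊕ Fin n' ≃ J) :
    ctr h (place e.symm c) = 0 := by
  apply eq_zero_of_ip_self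
  have h1 : ctr h (place e.symm c) ∈ PP k (Fin n') := ctr_mem hh (place_mem_PP _ hc)
  rw [← ip_box, ← ip_place]
  exact h0 _ (Submodule.subset_span ⟨n', e, _, h1, rfl⟩)

/-- the word form of a tensor -/
def wd {J : Type*} : Matrix (J → Fin k) (J → Fin k) ℝ →ₗ[ℝ] ((J → Fin k × Fin k) → ℝ) where
  toFun c := fun w => c (fun j => (w j).1) (fun j => (w j).2)
  map_add' _ _ := rfl
  map_smul' _ _ := rfl

theorem wd_apply {J : Type*} (c : Matrix (J → Fin k) (J → Fin k) ℝ) (w : J → Fin k × Fin k) :
    wd c w = c (fun j => (w j).1) (fun j => (w j).2) := rfl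

theorem wd_injective {J : Type*} : Function.Injective
    (wd : Matrix (J → Fin k) (J → Fin k) ℝ →ₗ[ℝ] ((J → Fin k × Fin k) → ℝ)) := by
  intro c d h
  ext a b
  exact congrFun h (fun j => (a j, b j))

theorem wd_mem_KK {M : Type*} [Fintype M] [DecidableEq M]
    {h : Matrix (M → Fin k) (M → Fin k) ℝ} (hh : h ∈ PP k M) {m : ℕ} (φ : M ≃ Fin m)
    {n : ℕ} {c : Matrix (Fin n → Fin k) (Fin n → Fin k) ℝ}
    (hc : c ∈ PP k (Fin n)) (h0 : ∀ u ∈ UU h (Fin n), ip c u = 0) :
    wd c ∈ KK n m (wd (place φ h)) := by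
  intro f hf r
  obtain ⟨n', e, he⟩ := exists_ext_equiv (f ∘ φ) (hf.injective.comp φ.injective)
  have h1 := congrFun (congrFun (ctr_eq_zero hh hc h0 e) (fun j => (r (e (Sum.inr j))).1))
    (fun j => (r (e (Sum.inr j))).2)
  have h2 : ctr h (place e.symm c) (fun j => (r (e (Sum.inr j))).1)
      (fun j => (r (e (Sum.inr j))).2) =
      ∑ u : Fin m → Fin k × Fin k, wd (place φ h) u * wd c (merge f u r) := by
    let Ε : (Fin m → Fin k × Fin k) ≃ (M → Fin k) × (M → Fin k) :=
      (φ.symm.arrowCongr (Equiv.refl _)).trans (Equiv.arrowProdEquivProdArrow M _ _)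
    rw [← Ε.symm.sum_comp, Fintype.sum_prod_type]
    unfold ctr
    refine sum_congr rfl fun a _ => sum_congr rfl fun b _ => ?_
    have hu : ∀ i, Ε.symm (a, b) i = (a (φ.symm i), b (φ.symm i)) := fun i => rfl
    have e1 : wd (place φ h) (Ε.symm (a, b)) = h a b := by
      rw [wd_apply, place_apply]
      congr 1
      · ext i
        simp [hu]
      · ext i
        simp [hu]
    have e2 : ∀ z : M ⊕ Fin n', merge f (Ε.symm (a, b)) r (e z) =
        Sum.elim (fun i => (a i, b i)) (fun j => r (e (Sum.inr j))) z := by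
      rintro (i | j)
      · rw [he, Function.comp_apply, merge_apply hf.injective, hu]
        simp
      · rw [merge_apply_of_notMem]
        · rfl
        · intro i hi
          have h3 := he (φ.symm i)
          rw [Function.comp_apply, Equiv.apply_symm_apply, hi] at h3
          exact absurd (e.injective h3) (by simp)
    have e3 : wd c (merge f (Ε.symm (a, b)) r) = place e.symm c
        (Sum.elim a (fun j => (r (e (Sum.inr j))).1))
        (Sum.elim b (fun j => (r (e (Sum.inr j))).2)) := by
      rw [wd_apply, place_apply]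
      congr 1
      · ext j
        obtain ⟨z, rfl⟩ := e.surjective j
        rw [e2]
        rcases z with i | j <;> simp
      · ext j
        obtain ⟨z, rfl⟩ := e.surjective j
        rw [e2]
        rcases z with i | j <;> simp
    rw [e1, e3]
  rw [h2] at h1
  exact h1

theorem finrank_PP_le_UU {M : Type*} [Fintype M] [DecidableEq M]
    {h : Matrix (M → Fin k) (M → Fin k) ℝ} (hh : h ∈ PP k M) {m : ℕ} (φ : M ≃ Fin m) (n : ℕ) :
    pp k n ≤ Module.finrank ℝ (UU h (Fin n)) + Module.finrank ℝ (KK n m (wd (place φ h))) := by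
  let g : PP k (Fin n) →ₗ[ℝ] Module.Dual ℝ (UU h (Fin n)) :=
    { toFun := fun c => (ipL c.1).comp (UU h (Fin n)).subtype
      map_add' := by
        intro c d
        ext u
        exact ip_add_left _ _ _
      map_smul' := by
        intro r c
        ext u
        exact ip_smul_left _ _ _ }
  have h1 := LinearMap.finrank_range_add_finrank_ker g
  have h2 : Module.finrank ℝ (LinearMap.range g) ≤ Module.finrank ℝ (UU h (Fin n)) := by
    refine (Submodule.finrank_le _).trans ?_
    rw [Subspace.dual_finrank_eq]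
  have h3 : Module.finrank ℝ (LinearMap.ker g) ≤
      Module.finrank ℝ (KK n m (wd (place φ h))) := by
    have hker : ∀ c : LinearMap.ker g, ∀ u ∈ UU h (Fin n), ip c.1.1 u = 0 := by
      intro c u hu
      have := LinearMap.congr_fun (LinearMap.mem_ker.1 c.2) ⟨u, hu⟩
      exact this
    let g' : LinearMap.ker g →ₗ[ℝ] KK n m (wd (place φ h)) :=
      ((wd.comp (PP k (Fin n)).subtype).comp (LinearMap.ker g).subtype).codRestrict _
        fun c => wd_mem_KK hh φ c.1.2 (hker c)
    apply LinearMap.finrank_le_finrank_of_injective (f := g')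
    intro c d hcd
    have h4 : wd c.1.1 = wd d.1.1 := congrArg Subtype.val hcd
    exact Subtype.ext (Subtype.ext (wd_injective h4))
  unfold pp
  omega

/-- the error term -/
def kap (k n : ℕ) : ℕ := (n + 1) ^ (k * k + k * k) * (k * k - 1) ^ n

theorem pp_le_UU (hk : 2 ≤ k) (c : Equiv.Perm (Fin k × Fin k)) (n : ℕ) :
    pp k n ≤ Module.finrank ℝ (UU (hT c) (Fin n)) + kap k n := by
  have e : MM k ≃ Fin (k * k + k * k) :=
    (Equiv.sumCongr finProdFinEquiv finProdFinEquiv).trans finSumFinEquiv
  refine (finrank_PP_le_UU (hT_mem c) e n).trans (Nat.add_le_add_left ?_ _)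
  have hcard : Fintype.card (Fin k × Fin k) = k * k := by simp
  have h0 : wd (place e (hT c)) ≠ 0 := by
    intro h1
    apply hT_ne_zero c
    have h2 : place e (hT c) = 0 := wd_injective (by rw [h1, map_zero])
    rw [← place_symm_place e (hT c), h2, map_zero]
  have h1 := finrank_KK_le (L := Fin k × Fin k) (by rw [hcard]; nlinarith) n _ h0
  rw [hcard] at h1
  exact h1

end Pool.Agent.W430.CC
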