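import Pool.Agent.W430.CC.Cyc

/-!
The conductor times any trace function is a combination of traces of single words.
-/

set_option autoImplicit false
set_option linter.all false

open Finset Matrix

namespace Pool.Agent.W430.CC

variable {k : ℕ}

theorem eq_optionCongr {J : Type*} (s : Equiv.Perm (Option J)) (h : s none = none) :
    s = Equiv.optionCongr (Equiv.removeNone s) := by
  ext o : 1
  cases o with
  | none => rw [h]; rfl
  | some j =>
    have h3 : s (some j) ≠ none := by
      intro h4
      rw [← h] at h4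
      exact absurd (s.injective h4) (by simp)
    obtain ⟨i, hi⟩ := Option.ne_none_iff_exists'.1 h3
    have h5 := Equiv.removeNone_some s ⟨i, hi⟩
    rw [← h5]
    rfl

theorem eq_ins {J : Type*} [DecidableEq J] (s : Equiv.Perm (Option J)) {i : J}
    (hi : s (some i) = none) : ∃ s' : Equiv.Perm J, s = ins s' i := by
  refine ⟨Equiv.removeNone (s * Equiv.swap (some i) none), ?_⟩
  have h1 : (s * Equiv.swap (some i) none) none = none := by
    rw [Equiv.Perm.mul_apply, Equiv.swap_apply_right, hi]
  have h2 := eq_optionCongr _ h1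
  unfold ins
  rw [← h2, mul_assoc, Equiv.swap_mul_self, mul_one]

/-- the index type of the variables of the conductor -/
abbrev MM (k : ℕ) := (Fin k × Fin k) ⊕ (Fin k × Fin k)

/-- moving the new variable inside -/
def mv (J : Type*) (k : ℕ) : Option (MM k ⊕ J) ≃ MM k ⊕ Option J where
  toFun o := match o with
    | none => Sum.inr none
    | some (Sum.inl m) => Sum.inl m
    | some (Sum.inr j) => Sum.inr (some j)
  invFun z := match z with
    | Sum.inl m => some (Sum.inl m)
    | Sum.inr none => none
    | Sum.inr (some j) => some (Sum.inr j)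
  left_inv o := by
    rcases o with _ | m | j <;> rfl
  right_inv z := by
    rcases z with m | _ | j <;> rfl

/-- the conductor times all trace functions are combinations of cyclic words -/
def Good (c : Equiv.Perm (Fin k × Fin k)) (J : Type*) [Fintype J] [DecidableEq J] : Prop :=
  ∀ s : Equiv.Perm J,
    (fun z : MM k ⊕ J → Matrix (Fin k) (Fin k) ℝ => hh c (z ∘ Sum.inl) * T s (z ∘ Sum.inr)) ∈
      FCy k (MM k ⊕ J)

theorem good_congr {c : Equiv.Perm (Fin k × Fin k)} {J J' : Type*} [Fintype J] [DecidableEq J]
    [Fintype J'] [DecidableEq J'] (e : J ≃ J') (h : Good c J) : Good c J' := by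
  intro s
  have h1 := congr_mem (Equiv.sumCongr (Equiv.refl (MM k)) e) (h (e.symm.permCongr s))
  have h2 : (fun z : MM k ⊕ J' → Matrix (Fin k) (Fin k) ℝ =>
      hh c (z ∘ Sum.inl) * T s (z ∘ Sum.inr)) =
      fun x => hh c ((x ∘ (Equiv.sumCongr (Equiv.refl (MM k)) e)) ∘ Sum.inl) *
        T (e.symm.permCongr s) ((x ∘ (Equiv.sumCongr (Equiv.refl (MM k)) e)) ∘ Sum.inr) := by
    ext z
    have h3 : (z ∘ (Equiv.sumCongr (Equiv.refl (MM k)) e)) ∘ Sum.inl = z ∘ Sum.inl := rfl
    have h4 : (z ∘ (Equiv.sumCongr (Equiv.refl (MM k)) e)) ∘ Sum.inr = (z ∘ Sum.inr) ∘ e := rfl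
    rw [h3, h4, T_congr]
    congr 2
    ext x
    simp [Equiv.permCongr_apply]
  rw [h2]
  exact h1

theorem good_empty {c : Equiv.Perm (Fin k × Fin k)} (hc : Trans c) (J : Type*) [Fintype J]
    [DecidableEq J] [IsEmpty J] : Good c J := by
  intro s
  have h1 := congr_mem (Equiv.sumEmpty (MM k) J).symm (hh_mem hc)
  have h2 : (fun z : MM k ⊕ J → Matrix (Fin k) (Fin k) ℝ =>
      hh c (z ∘ Sum.inl) * T s (z ∘ Sum.inr)) =
      fun x => hh c (x ∘ (Equiv.sumEmpty (MM k) J).symm) := by
    ext z
    have h3 : T s (z ∘ Sum.inr) = 1 := by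
      unfold T
      rw [Fintype.sum_unique]
      simp
    rw [h3, mul_one]
    rfl
  rw [h2]
  exact h1

theorem good_option (hk : 1 ≤ k) {c : Equiv.Perm (Fin k × Fin k)} {J : Type*} [Fintype J]
    [DecidableEq J] (h : Good c J) : Good c (Option J) := by
  intro s
  by_cases hs : s none = none
  · -- the new variable is a trace
    rw [eq_optionCongr s hs]
    set s' := Equiv.removeNone s
    have h0 := h s'
    have h1 : ∀ q : Fin k × Fin k, (fun x : Option (MM k ⊕ J) → Matrix (Fin k) (Fin k) ℝ =>
        hh c (sub (Sum.inl (Sum.inl q)) x ∘ Sum.inl) *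
          T s' (sub (Sum.inl (Sum.inl q)) x ∘ Sum.inr)) ∈ FCy k (Option (MM k ⊕ J)) :=
      fun q => sub_mem h0 (Sum.inl (Sum.inl q))
    have h2 := Submodule.sum_mem (FCy k (Option (MM k ⊕ J))) fun q (_ : q ∈ univ) => h1 q
    have h3 := congr_mem (mv J k) (Submodule.smul_mem _ ((k : ℝ)⁻¹) h2)
    have hk0 : (k : ℝ) ≠ 0 := by
      have : k ≠ 0 := by omega
      exact_mod_cast this
    convert h3 using 1
    ext z
    simp only [Pi.smul_apply, Finset.sum_apply, smul_eq_mul]
    have e1 : ∀ q : Fin k × Fin k, sub (Sum.inl (Sum.inl q)) (z ∘ (mv J k)) ∘ Sum.inl =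
        Function.update (z ∘ Sum.inl) (Sum.inl q)
          ((z ∘ Sum.inl) (Sum.inl q) * z (Sum.inr none)) := by
      intro q
      ext m : 1
      by_cases hm : m = Sum.inl q
      · subst hm
        rw [Function.update_self]
        simp only [sub, Function.comp_apply, if_true]
        rfl
      · rw [Function.update_of_ne hm]
        simp only [sub, Function.comp_apply]
        rw [if_neg (by simpa using hm)]
        rfl
    have e2 : ∀ q : Fin k × Fin k, sub (Sum.inl (Sum.inl q)) (z ∘ (mv J k)) ∘ Sum.inr =
        fun j => z (Sum.inr (some j)) := by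
      intro q
      ext j : 1
      simp only [sub, Function.comp_apply]
      rw [if_neg (by simp)]
      rfl
    simp only [e1, e2]
    rw [← sum_mul, hh_deriv, T_optionCongr]
    simp only [Function.comp_apply]
    field_simp
  · -- the new variable follows another one
    have h1 : ∃ i, s (some i) = none := by
      obtain ⟨o, ho⟩ := s.surjective none
      cases o with
      | none => exact absurd ho hs
      | some i => exact ⟨i, ho⟩
    obtain ⟨i, hi⟩ := h1
    obtain ⟨s', rfl⟩ := eq_ins s hi
    have h3 := congr_mem (mv J k) (sub_mem (h s') (Sum.inr i))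
    convert h3 using 1
    ext z
    have e1 : sub (Sum.inr i) (z ∘ (mv J k)) ∘ Sum.inl = z ∘ Sum.inl := by
      ext m : 1
      simp only [sub, Function.comp_apply]
      rw [if_neg (by simp)]
      rfl
    have e2 : sub (Sum.inr i) (z ∘ (mv J k)) ∘ Sum.inr = sub i (z ∘ Sum.inr) := by
      ext j : 1
      simp only [sub, Function.comp_apply]
      by_cases hj : j = i
      · subst hj
        simp only [if_true]
        rfl
      · rw [if_neg (by simpa using hj), if_neg hj]
        rfl
    rw [e1, e2, T_sub]

theorem good_fin (hk : 1 ≤ k) {c : Equiv.Perm (Fin k × Fin k)} (hc : Trans c) (n : ℕ) :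
    Good c (Fin n) := by
  induction n with
  | zero => exact good_empty hc _
  | succ n ih => exact good_congr (finSuccEquiv n).symm (good_option hk ih)

theorem good (hk : 1 ≤ k) {c : Equiv.Perm (Fin k × Fin k)} (hc : Trans c) (J : Type*) [Fintype J]
    [DecidableEq J] : Good c J :=
  good_congr (Fintype.equivFin J).symm (good_fin hk hc _)

end Pool.Agent.W430.CC
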