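import Pool.Agent.W430.CC.Perm

/-!
Trace functions of permutations, cyclic words, and the conductor: products of a certain alternating
trace function with all trace functions are combinations of traces of single words.
-/

set_option autoImplicit false
set_option linter.all false

open Finset Matrix

namespace Pool.Agent.W430.CC

/-- transitivity of a permutation -/
def Trans {J : Type*} (s : Equiv.Perm J) : Prop :=
  ∀ S : Set J, S.Nonempty → (∀ x ∈ S, s x ∈ S) → ∀ x, x ∈ S

section defs

variable {k : ℕ} {J : Type*} [Fintype J] [DecidableEq J]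

/-- the trace function of a permutation -/
def T (s : Equiv.Perm J) (x : J → Matrix (Fin k) (Fin k) ℝ) : ℝ :=
  ∑ a : J → Fin k, ∏ j, x j (a j) (a (s j))

variable (k J) in
/-- the span of the trace functions of the transitive permutations -/
def FCy : Submodule ℝ ((J → Matrix (Fin k) (Fin k) ℝ) → ℝ) :=
  Submodule.span ℝ {f | ∃ s : Equiv.Perm J, Trans s ∧ f = T s}

theorem T_mem {s : Equiv.Perm J} (hs : Trans s) : (T s : (J → Matrix (Fin k) (Fin k) ℝ) → ℝ) ∈ FCy k J :=
  Submodule.subset_span ⟨s, hs, rfl⟩

/-- the substitution `x_i ↦ x_i * x_none` -/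
def sub (i : J) (x : Option J → Matrix (Fin k) (Fin k) ℝ) : J → Matrix (Fin k) (Fin k) ℝ :=
  fun l => if l = i then x (some i) * x none else x (some l)

/-- insertion of the new variable after `i` -/
def ins (s : Equiv.Perm J) (i : J) : Equiv.Perm (Option J) :=
  Equiv.optionCongr s * Equiv.swap (some i) none

theorem ins_some_self (s : Equiv.Perm J) (i : J) : ins s i (some i) = none := by
  simp [ins]

theorem ins_none (s : Equiv.Perm J) (i : J) : ins s i none = some (s i) := by
  simp [ins]

theorem ins_some_of_ne (s : Equiv.Perm J) {i l : J} (h : l ≠ i) :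
    ins s i (some l) = some (s l) := by
  simp only [ins, Equiv.Perm.mul_apply]
  rw [Equiv.swap_apply_of_ne_of_ne (by simpa using h) (by simp)]
  rfl

theorem trans_ins {s : Equiv.Perm J} (hs : Trans s) (i : J) : Trans (ins s i) := by
  intro S hS hinv
  have h1 : ∀ l, some l ∈ S → some (s l) ∈ S := by
    intro l hl
    by_cases h : l = i
    · subst h
      have h2 := hinv _ hl
      rw [ins_some_self] at h2
      have h3 := hinv _ h2
      rw [ins_none] at h3
      exact h3
    · have h2 := hinv _ hl
      rw [ins_some_of_ne s h] at h2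
      exact h2
  have h2 : ∀ l, some l ∈ S := by
    apply hs {l | some l ∈ S}
    · obtain ⟨o, ho⟩ := hS
      cases o with
      | none =>
        have h3 := hinv _ ho
        rw [ins_none] at h3
        exact ⟨_, h3⟩
      | some l => exact ⟨l, ho⟩
    · exact h1
  intro o
  cases o with
  | none =>
    have h3 := hinv _ (h2 i)
    rwa [ins_some_self] at h3
  | some l => exact h2 l

theorem T_sub (s : Equiv.Perm J) (i : J) (x : Option J → Matrix (Fin k) (Fin k) ℝ) :
    T s (sub i x) = T (ins s i) x := by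
  unfold T
  rw [sum_ex, sum_comm]
  refine sum_congr rfl fun a _ => ?_
  have h1 : ∏ j, sub i x j (a j) (a (s j)) =
      (∑ z, x (some i) (a i) z * x none z (a (s i))) *
        ∏ l ∈ univ.erase i, x (some l) (a l) (a (s l)) := by
    rw [← mul_prod_erase univ _ (mem_univ i)]
    congr 1
    · simp only [sub, if_true, Matrix.mul_apply]
    · refine prod_congr rfl fun l hl => ?_
      rw [sub, if_neg (ne_of_mem_erase hl)]
  rw [h1, sum_mul]
  refine sum_congr rfl fun z _ => ?_
  rw [Fintype.prod_option, ← mul_prod_erase univ _ (mem_univ i), ins_none, ins_some_self]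
  simp only [ex_none, ex_some]
  have h2 : ∏ l ∈ univ.erase i, x (some l) (a l) (ex z a (ins s i (some l))) =
      ∏ l ∈ univ.erase i, x (some l) (a l) (a (s l)) := by
    refine prod_congr rfl fun l hl => ?_
    rw [ins_some_of_ne s (ne_of_mem_erase hl), ex_some]
  rw [h2]
  ring

theorem sub_mem {f : (J → Matrix (Fin k) (Fin k) ℝ) → ℝ} (hf : f ∈ FCy k J) (i : J) :
    (fun x => f (sub i x)) ∈ FCy k (Option J) := by
  induction hf using Submodule.span_induction with
  | mem f hf =>
    obtain ⟨s, hs, rfl⟩ := hf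
    have : (fun x => T s (sub i x)) = (T (ins s i) : (Option J → Matrix (Fin k) (Fin k) ℝ) → ℝ) :=
      funext fun x => T_sub s i x
    rw [this]
    exact T_mem (trans_ins hs i)
  | zero => exact zero_mem _
  | add x y _ _ hx hy => exact add_mem hx hy
  | smul r x _ hx => exact Submodule.smul_mem _ _ hx

theorem trans_congr {J' : Type*} {s : Equiv.Perm J} (hs : Trans s) (e : J ≃ J') :
    Trans (e.permCongr s) := by
  intro S hS hinv x
  have h1 := hs {j | e j ∈ S} (by
    obtain ⟨y, hy⟩ := hS
    exact ⟨e.symm y, by simpa using hy⟩) (by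
    intro j hj
    have := hinv _ hj
    simpa using this) (e.symm x)
  simpa using h1

theorem T_congr {J' : Type*} [Fintype J'] [DecidableEq J'] (s : Equiv.Perm J) (e : J ≃ J')
    (x : J' → Matrix (Fin k) (Fin k) ℝ) : T s (x ∘ e) = T (e.permCongr s) x := by
  unfold T
  rw [← (e.arrowCongr (Equiv.refl (Fin k))).sum_comp]
  refine sum_congr rfl fun a _ => ?_
  rw [← e.prod_comp]
  refine prod_congr rfl fun j _ => ?_
  simp [Equiv.arrowCongr, Equiv.permCongr_apply]

theorem congr_mem {J' : Type*} [Fintype J'] [DecidableEq J'] (e : J ≃ J')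
    {f : (J → Matrix (Fin k) (Fin k) ℝ) → ℝ} (hf : f ∈ FCy k J) :
    (fun x : J' → Matrix (Fin k) (Fin k) ℝ => f (x ∘ e)) ∈ FCy k J' := by
  induction hf using Submodule.span_induction with
  | mem f hf =>
    obtain ⟨s, hs, rfl⟩ := hf
    have : (fun x : J' → Matrix (Fin k) (Fin k) ℝ => T s (x ∘ e)) = T (e.permCongr s) :=
      funext fun x => T_congr s e x
    rw [this]
    exact T_mem (trans_congr hs e)
  | zero => exact zero_mem _
  | add x y _ _ hx hy => exact add_mem hx hy
  | smul r x _ hx => exact Submodule.smul_mem _ _ hx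

theorem T_optionCongr (s : Equiv.Perm J) (x : Option J → Matrix (Fin k) (Fin k) ℝ) :
    T (Equiv.optionCongr s) x = (x none).trace * T s (fun j => x (some j)) := by
  unfold T
  rw [sum_ex, Matrix.trace, sum_mul]
  refine sum_congr rfl fun z _ => ?_
  rw [mul_sum]
  refine sum_congr rfl fun a _ => ?_
  rw [Fintype.prod_option]
  rfl

end defs

/-! ### alternating functions on `X → E` -/

section alt

variable {k : ℕ}

/-- the derivation property -/
theorem alt_deriv (f : (Matrix (Fin k) (Fin k) ℝ) [⋀^(Fin k × Fin k)]→ₗ[ℝ] ℝ)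
    (x : Fin k × Fin k → Matrix (Fin k) (Fin k) ℝ) (w : Matrix (Fin k) (Fin k) ℝ) :
    ∑ q, f (Function.update x q (x q * w)) = (k * w.trace) * f x := by
  let e := Matrix.stdBasis ℝ (Fin k) (Fin k)
  rw [f.eq_smul_basis_det e]
  simp only [AlternatingMap.smul_apply, smul_eq_mul]
  rw [← mul_sum]
  have key : ∑ q, e.det (Function.update x q (x q * w)) = (k * w.trace) * e.det x := by
    let A := e.toMatrix x
    let B : Matrix (Fin k × Fin k) (Fin k × Fin k) ℝ :=
      LinearMap.toMatrix e e (LinearMap.mulRight ℝ w)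
    have h1 : ∀ q, e.det (Function.update x q (x q * w)) = (A.adjugate * (B * A)) q q := by
      intro q
      rw [Module.Basis.det_apply, Module.Basis.toMatrix_update, ← Matrix.cramer_apply,
        Matrix.cramer_eq_adjugate_mulVec]
      have h2 : (e.repr (x q * w) : Fin k × Fin k → ℝ) = B *ᵥ (fun p => A p q) := by
        have := LinearMap.toMatrix_mulVec_repr e e (LinearMap.mulRight ℝ w) (x q)
        rw [LinearMap.mulRight_apply] at this
        rw [← this]
        rfl
      rw [h2, Matrix.mul_apply]
      rfl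
    simp only [h1]
    change (A.adjugate * (B * A)).trace = _
    rw [Matrix.trace_mul_comm, Matrix.mul_assoc, Matrix.mul_adjugate, Matrix.mul_smul,
      Matrix.mul_one, Matrix.trace_smul, smul_eq_mul]
    have h3 : B.trace = k * w.trace := by
      simp only [Matrix.trace, Matrix.diag_apply]
      have h4 : ∀ p : Fin k × Fin k, B p p = w p.2 p.2 := by
        intro p
        change LinearMap.toMatrix e e (LinearMap.mulRight ℝ w) p p = _
        rw [LinearMap.toMatrix_apply, LinearMap.mulRight_apply]
        change (Matrix.stdBasis ℝ (Fin k) (Fin k)).repr _ (p.1, p.2) = _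
        rw [show e p = Matrix.single p.1 p.2 1 from Matrix.stdBasis_eq_single ℝ p.1 p.2]
        have h5 : ∀ M : Matrix (Fin k) (Fin k) ℝ,
            (Matrix.stdBasis ℝ (Fin k) (Fin k)).repr M (p.1, p.2) = M p.1 p.2 := fun M => rfl
        rw [h5]
        simp
      simp only [h4]
      rw [Fintype.sum_prod_type]
      simp
    rw [h3, Module.Basis.det_apply]
    ring
  rw [key]
  ring

end alt

/-! ### the conductor -/

section cond

theorem exists_trans (X : Type*) [Fintype X] : ∃ c : Equiv.Perm X, Trans c := by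
  obtain ⟨n, hn⟩ : ∃ n, Fintype.card X = n := ⟨_, rfl⟩
  have e := Fintype.equivFinOfCardEq hn
  suffices h : ∃ c : Equiv.Perm (Fin n), Trans c by
    obtain ⟨c, hc⟩ := h
    refine ⟨e.symm.permCongr c, ?_⟩
    intro S hS hinv x
    have h1 := hc {j | e.symm j ∈ S} (by
      obtain ⟨y, hy⟩ := hS
      exact ⟨e y, by simpa using hy⟩) (by
      intro j hj
      have := hinv _ hj
      simpa [Equiv.permCongr_apply] using this) (e x)
    simpa using h1
  refine ⟨finRotate n, ?_⟩
  intro S hS hinv x
  have hpow : ∀ (i : ℕ) (y : Fin n), y ∈ S → ((finRotate n) ^ i) y ∈ S := by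
    intro i
    induction i with
    | zero => intro y hy; exact hy
    | succ i ih =>
      intro y hy
      rw [pow_succ', Equiv.Perm.mul_apply]
      exact hinv _ (ih y hy)
  obtain ⟨y, hy⟩ := hS
  rcases n with _ | _ | n
  · exact x.elim0
  · rwa [show x = y from Fin.ext (by omega)]
  · have h1 : ∀ z : Fin (n + 2), finRotate (n + 2) z ≠ z := by
      intro z
      rw [← Equiv.Perm.mem_support, support_finRotate]
      exact mem_univ _
    obtain ⟨i, hi⟩ := isCycle_finRotate.exists_pow_eq (h1 y) (h1 x)
    rw [← hi]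
    exact hpow i y hy

variable {k : ℕ}

/-- the alternating cyclic words -/
def gam {X : Type*} (c π : Equiv.Perm X) : Equiv.Perm (X ⊕ X) where
  toFun := Sum.elim (fun q => Sum.inr (π.symm q)) (fun p => Sum.inl (π (c p)))
  invFun := Sum.elim (fun q => Sum.inr (c.symm (π.symm q))) (fun p => Sum.inl (π p))
  left_inv z := by
    rcases z with q | p <;> simp
  right_inv z := by
    rcases z with q | p <;> simp

@[simp] theorem gam_inl {X : Type*} (c π : Equiv.Perm X) (q : X) :
    gam c π (Sum.inl q) = Sum.inr (π.symm q) := rfl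
@[simp] theorem gam_inr {X : Type*} (c π : Equiv.Perm X) (q : X) :
    gam c π (Sum.inr q) = Sum.inl (π (c q)) := rfl

theorem trans_gam {X : Type*} {c : Equiv.Perm X} (hc : Trans c) (π : Equiv.Perm X) :
    Trans (gam c π) := by
  intro S hS hinv
  have h1 : ∀ p, Sum.inr p ∈ S := by
    apply hc {p | Sum.inr p ∈ S}
    · obtain ⟨z, hz⟩ := hS
      rcases z with q | p
      · exact ⟨_, hinv _ hz⟩
      · exact ⟨p, hz⟩
    · intro p hp
      have h2 := hinv _ (hinv _ hp)
      simpa using h2
  intro z
  rcases z with q | p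
  · have h2 := hinv _ (h1 (c.symm (π.symm q)))
    simpa using h2
  · exact h1 p

/-- the conductor -/
def hh (c : Equiv.Perm (Fin k × Fin k))
    (z : (Fin k × Fin k) ⊕ (Fin k × Fin k) → Matrix (Fin k) (Fin k) ℝ) : ℝ :=
  ∑ π : Equiv.Perm (Fin k × Fin k), ((Equiv.Perm.sign π : ℤ) : ℝ) * T (gam c π) z

theorem hh_mem {c : Equiv.Perm (Fin k × Fin k)} (hc : Trans c) :
    hh c ∈ FCy k ((Fin k × Fin k) ⊕ (Fin k × Fin k)) := by
  have : hh c = ∑ π : Equiv.Perm (Fin k × Fin k), ((Equiv.Perm.sign π : ℤ) : ℝ) •
      (T (gam c π) : ((Fin k × Fin k) ⊕ (Fin k × Fin k) → Matrix (Fin k) (Fin k) ℝ) → ℝ) := by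
    ext z
    simp only [hh, Finset.sum_apply, Pi.smul_apply, smul_eq_mul]
  rw [this]
  exact Submodule.sum_mem _ fun π _ => Submodule.smul_mem _ _ (T_mem (trans_gam hc π))

/-- the underlying multilinear map -/
noncomputable def mm (c : Equiv.Perm (Fin k × Fin k))
    (y : Fin k × Fin k → Matrix (Fin k) (Fin k) ℝ) :
    MultilinearMap ℝ (fun _ : Fin k × Fin k => Matrix (Fin k) (Fin k) ℝ) ℝ :=
  ∑ a : (Fin k × Fin k) ⊕ (Fin k × Fin k) → Fin k,
    (∏ p, y p (a (Sum.inr p)) (a (Sum.inl (c p)))) •
      ((MultilinearMap.mkPiAlgebra ℝ (Fin k × Fin k) ℝ).compLinearMap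
        fun q => Matrix.entryLinearMap ℝ ℝ (a (Sum.inl q)) (a (Sum.inr q)))

theorem mm_apply (c : Equiv.Perm (Fin k × Fin k))
    (y x : Fin k × Fin k → Matrix (Fin k) (Fin k) ℝ) :
    mm c y x = T (gam c 1) (Sum.elim x y) := by
  unfold mm T
  rw [MultilinearMap.sum_apply]
  refine sum_congr rfl fun a _ => ?_
  rw [MultilinearMap.smul_apply, MultilinearMap.compLinearMap_apply,
    MultilinearMap.mkPiAlgebra_apply, smul_eq_mul, Fintype.prod_sum_type, mul_comm]
  rfl

theorem T_gam (c π : Equiv.Perm (Fin k × Fin k))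
    (y x : Fin k × Fin k → Matrix (Fin k) (Fin k) ℝ) :
    T (gam c 1) (Sum.elim (x ∘ π) y) = T (gam c π) (Sum.elim x y) := by
  have h1 := T_congr (gam c 1) (Equiv.sumCongr π 1) (Sum.elim x y)
  have h2 : Sum.elim x y ∘ (Equiv.sumCongr π 1) = Sum.elim (x ∘ π) y := by
    ext z : 1
    rcases z with q | p <;> rfl
  have h3 : (Equiv.sumCongr π 1).permCongr (gam c 1) = gam c π := by
    ext z
    rcases z with q | p
    · simp [Equiv.permCongr_apply]
      rfl
    · simp [Equiv.permCongr_apply]
  rw [h2, h3] at h1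
  exact h1

theorem hh_eq (c : Equiv.Perm (Fin k × Fin k))
    (y x : Fin k × Fin k → Matrix (Fin k) (Fin k) ℝ) :
    hh c (Sum.elim x y) = MultilinearMap.alternatization (mm c y) x := by
  rw [MultilinearMap.alternatization_apply]
  unfold hh
  refine sum_congr rfl fun π _ => ?_
  rw [MultilinearMap.domDomCongr_apply, mm_apply]
  have : (fun i => x (π i)) = x ∘ π := rfl
  rw [this, T_gam, Units.smul_def, zsmul_eq_mul]

/-- the conductor absorbs traces -/
theorem hh_deriv (c : Equiv.Perm (Fin k × Fin k))
    (z : (Fin k × Fin k) ⊕ (Fin k × Fin k) → Matrix (Fin k) (Fin k) ℝ)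
    (w : Matrix (Fin k) (Fin k) ℝ) :
    ∑ q, hh c (Function.update z (Sum.inl q) (z (Sum.inl q) * w)) = (k * w.trace) * hh c z := by
  obtain ⟨x, y, rfl⟩ : ∃ x y, z = Sum.elim x y := ⟨z ∘ Sum.inl, z ∘ Sum.inr, (Sum.elim_comp_inl_inr z).symm⟩
  rw [hh_eq, ← alt_deriv]
  refine sum_congr rfl fun q _ => ?_
  rw [← hh_eq]
  congr 1
  rw [Sum.elim_inl]
  exact Sum.update_elim_inl

/-- the conductor is not zero -/
theorem hh_ne_zero (c : Equiv.Perm (Fin k × Fin k)) : hh c ≠ 0 := by
  intro h
  have h1 := congrFun h (Sum.elim (fun q => Matrix.single q.1 q.2 1)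
    (fun p => Matrix.single p.2 (c p).1 1))
  unfold hh at h1
  rw [sum_eq_single 1] at h1
  · simp only [Equiv.Perm.sign_one, Units.val_one, Int.cast_one, one_mul, Pi.zero_apply] at h1
    unfold T at h1
    rw [sum_eq_single (Sum.elim (fun q => q.1) (fun q => q.2))] at h1
    · rw [Fintype.prod_sum_type] at h1
      have h0 : (Equiv.symm (1 : Equiv.Perm (Fin k × Fin k))) = 1 := rfl
      simp [h0] at h1
    · intro a _ ha
      by_contra hne
      apply ha
      rw [Finset.prod_eq_zero_iff] at hne
      push Not at hne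
      ext z : 1
      rcases z with q | p
      · have h2 := hne (Sum.inl q) (mem_univ _)
        simp only [Sum.elim_inl] at h2 ⊢
        by_contra h3
        apply h2
        rw [Matrix.single_apply_of_ne]
        exact fun h4 => h3 h4.1.symm
      · have h2 := hne (Sum.inr p) (mem_univ _)
        simp only [Sum.elim_inr] at h2 ⊢
        by_contra h3
        apply h2
        rw [Matrix.single_apply_of_ne]
        exact fun h4 => h3 h4.1.symm
    · intro h; exact absurd (mem_univ _) h
  · intro π _ hπ
    rw [mul_eq_zero]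
    right
    unfold T
    refine sum_eq_zero fun a _ => ?_
    by_contra hne
    rw [Finset.prod_eq_zero_iff] at hne
    push Not at hne
    apply hπ
    have h2 : ∀ q : Fin k × Fin k, q.1 = a (Sum.inl q) ∧ q.2 = a (Sum.inr (π.symm q)) := by
      intro q
      have h2 := hne (Sum.inl q) (mem_univ _)
      simp only [Sum.elim_inl] at h2
      by_contra h3
      exact h2 (Matrix.single_apply_of_ne _ _ _ _ _ h3)
    have h3 : ∀ p : Fin k × Fin k, p.2 = a (Sum.inr p) ∧ (c p).1 = a (Sum.inl (π (c p))) := by
      intro p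
      have h2 := hne (Sum.inr p) (mem_univ _)
      simp only [Sum.elim_inr] at h2
      by_contra h3
      exact h2 (Matrix.single_apply_of_ne _ _ _ _ _ h3)
    ext p : 1
    have e1 : (π p).2 = p.2 := by
      rw [(h2 (π p)).2, Equiv.symm_apply_apply]
      exact (h3 p).1.symm
    have e2 : (π p).1 = p.1 := by
      rw [(h2 (π p)).1]
      have := (h3 (c.symm p)).2
      rw [Equiv.apply_symm_apply] at this
      exact this.symm
    exact Prod.ext e2 e1
  · intro h; exact absurd (mem_univ _) h

end cond

end Pool.Agent.W430.CC
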