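import Mathlib

/-!
Linear algebra: orthonormal bases of spaces of matrices, and the inequality
`(dim H)^2 ≤ dim B * dim B'` for a `*`-algebra `B` of operators and its commutant `B'`.
-/

set_option autoImplicit false

open Finset Matrix

namespace Pool.Agent.W430.CC

/-- Frobenius inner product -/
def ip {X Y : Type*} [Fintype X] [Fintype Y] (a b : Matrix X Y ℝ) : ℝ := ∑ x, ∑ y, a x y * b x y

section ip

variable {X Y : Type*} [Fintype X] [Fintype Y]

theorem ip_comm (a b : Matrix X Y ℝ) : ip a b = ip b a := by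
  unfold ip
  exact sum_congr rfl fun x _ => sum_congr rfl fun y _ => mul_comm _ _

theorem ip_add_left (a b c : Matrix X Y ℝ) : ip (a + b) c = ip a c + ip b c := by
  simp only [ip, Matrix.add_apply, add_mul, sum_add_distrib]

theorem ip_add_right (a b c : Matrix X Y ℝ) : ip a (b + c) = ip a b + ip a c := by
  simp only [ip, Matrix.add_apply, mul_add, sum_add_distrib]

theorem ip_smul_left (r : ℝ) (a c : Matrix X Y ℝ) : ip (r • a) c = r * ip a c := by
  simp only [ip, Matrix.smul_apply, smul_eq_mul, mul_sum, mul_assoc]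

theorem ip_smul_right (r : ℝ) (a c : Matrix X Y ℝ) : ip a (r • c) = r * ip a c := by
  rw [ip_comm, ip_smul_left, ip_comm]

/-- the inner product as a linear map in the second argument -/
def ipL (a : Matrix X Y ℝ) : Matrix X Y ℝ →ₗ[ℝ] ℝ where
  toFun := ip a
  map_add' := ip_add_right a
  map_smul' r c := ip_smul_right r a c

theorem ip_sum_right {ι : Type*} (s : Finset ι) (a : Matrix X Y ℝ) (f : ι → Matrix X Y ℝ) :
    ip a (∑ i ∈ s, f i) = ∑ i ∈ s, ip a (f i) := map_sum (ipL a) f s

theorem ip_sum_left {ι : Type*} (s : Finset ι) (a : Matrix X Y ℝ) (f : ι → Matrix X Y ℝ) :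
    ip (∑ i ∈ s, f i) a = ∑ i ∈ s, ip (f i) a := by
  rw [ip_comm, ip_sum_right]
  exact sum_congr rfl fun i _ => ip_comm _ _

theorem ip_prod (a b : Matrix X Y ℝ) : ip a b = ∑ z : X × Y, a z.1 z.2 * b z.1 z.2 := by
  rw [Fintype.sum_prod_type]
  rfl

theorem ip_self_nonneg (a : Matrix X Y ℝ) : 0 ≤ ip a a :=
  sum_nonneg fun _ _ => sum_nonneg fun _ _ => mul_self_nonneg _

theorem eq_zero_of_ip_self {a : Matrix X Y ℝ} (h : ip a a = 0) : a = 0 := by
  ext x y
  have h1 := (sum_eq_zero_iff_of_nonneg (fun x _ =>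
    sum_nonneg fun y _ => mul_self_nonneg (a x y))).1 h x (mem_univ x)
  have h2 := (sum_eq_zero_iff_of_nonneg (fun y _ => mul_self_nonneg (a x y))).1 h1 y (mem_univ y)
  simpa using h2

end ip

/-- orthonormal bases of spaces of matrices -/
theorem exists_onb {X Y : Type*} [Fintype X] [Fintype Y]
    (S : Submodule ℝ (Matrix X Y ℝ)) :
    ∃ b : Fin (Module.finrank ℝ S) → Matrix X Y ℝ, (∀ i, b i ∈ S) ∧
      (∀ i j, ip (b i) (b j) = if i = j then 1 else 0) ∧
      (∀ v ∈ S, v = ∑ i, ip (b i) v • b i) := by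
  classical
  let e : Matrix X Y ℝ ≃ₗ[ℝ] EuclideanSpace ℝ (X × Y) :=
    (LinearEquiv.curry ℝ ℝ X Y).symm.trans (WithLp.linearEquiv 2 ℝ (X × Y → ℝ)).symm
  have he : ∀ a b : Matrix X Y ℝ, inner ℝ (e a) (e b) = ip a b := by
    intro a b
    rw [PiLp.inner_apply, Fintype.sum_prod_type]
    unfold ip
    refine sum_congr rfl fun x _ => sum_congr rfl fun y _ => ?_
    change b x y * a x y = _
    exact mul_comm _ _
  let S' := S.map (e : Matrix X Y ℝ →ₗ[ℝ] EuclideanSpace ℝ (X × Y))
  have hfr : Module.finrank ℝ S' = Module.finrank ℝ S := LinearEquiv.finrank_map_eq e S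
  let b0 := (stdOrthonormalBasis ℝ S').reindex (finCongr hfr)
  refine ⟨fun i => e.symm (b0 i : EuclideanSpace ℝ (X × Y)), ?_, ?_, ?_⟩
  · intro i
    obtain ⟨v, hv, h2⟩ := (b0 i).2
    change e v = _ at h2
    change e.symm (b0 i : EuclideanSpace ℝ (X × Y)) ∈ S
    rw [← h2, LinearEquiv.symm_apply_apply]
    exact hv
  · intro i j
    rw [← he, LinearEquiv.apply_symm_apply, LinearEquiv.apply_symm_apply]
    have := orthonormal_iff_ite.1 b0.orthonormal i j
    rw [← this]
    rfl
  · intro v hv
    have h1 := b0.sum_repr' ⟨e v, v, hv, rfl⟩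
    have h2 := congrArg (fun z : S' => e.symm (z : EuclideanSpace ℝ (X × Y))) h1
    simp only [Submodule.coe_sum, Submodule.coe_smul, map_sum, map_smul,
      LinearEquiv.symm_apply_apply] at h2
    refine h2.symm.trans (sum_congr rfl fun i _ => ?_)
    congr 1
    rw [← he, LinearEquiv.apply_symm_apply]
    rfl

/-- If `C` contains the commutant of the `*`-algebra `B` of matrices, then
`(card X)^2 ≤ dim B * dim C`. -/
theorem lemG {X : Type*} [Fintype X] [DecidableEq X] (B C : Submodule ℝ (Matrix X X ℝ))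
    (h1 : (1 : Matrix X X ℝ) ∈ B) (hmul : ∀ a ∈ B, ∀ b ∈ B, a * b ∈ B)
    (hT : ∀ a ∈ B, aᵀ ∈ B)
    (hC : ∀ c : Matrix X X ℝ, (∀ b ∈ B, b * c = c * b) → c ∈ C) :
    (Fintype.card X : ℝ) ^ 2 ≤ Module.finrank ℝ B * Module.finrank ℝ C := by
  obtain ⟨b, hb, hbo, hbe⟩ := exists_onb B
  obtain ⟨c, hc, hco, hce⟩ := exists_onb C
  -- the operator E
  set E : Matrix X X ℝ → Matrix X X ℝ := fun M => ∑ j, b j * M * (b j)ᵀ with hE
  have hEC : ∀ M, E M ∈ C := by
    intro M
    apply hC
    intro g hg
    have e1 : g * E M = ∑ j, ∑ l, ip (b l) (g * b j) • (b l * M * (b j)ᵀ) := by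
      rw [hE, mul_sum]
      refine sum_congr rfl fun j _ => ?_
      have := hbe _ (hmul g hg (b j) (hb j))
      calc g * (b j * M * (b j)ᵀ) = (g * b j) * M * (b j)ᵀ := by simp only [Matrix.mul_assoc]
        _ = (∑ l, ip (b l) (g * b j) • b l) * M * (b j)ᵀ := by rw [← this]
        _ = _ := by
          rw [Matrix.sum_mul, Matrix.sum_mul]
          refine sum_congr rfl fun l _ => ?_
          rw [Matrix.smul_mul, Matrix.smul_mul]
    have e2 : E M * g = ∑ l, ∑ j, ip (b j) (gᵀ * b l) • (b l * M * (b j)ᵀ) := by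
      rw [hE, sum_mul]
      refine sum_congr rfl fun l _ => ?_
      have := hbe _ (hmul _ (hT g hg) (b l) (hb l))
      calc b l * M * (b l)ᵀ * g = b l * M * (gᵀ * b l)ᵀ := by
            rw [Matrix.transpose_mul, Matrix.transpose_transpose]
            simp only [Matrix.mul_assoc]
        _ = b l * M * (∑ j, ip (b j) (gᵀ * b l) • b j)ᵀ := by rw [← this]
        _ = _ := by
          rw [Matrix.transpose_sum, Matrix.mul_sum]
          refine sum_congr rfl fun j _ => ?_
          rw [Matrix.transpose_smul, Matrix.mul_smul]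
    rw [e1, e2, sum_comm]
    refine sum_congr rfl fun l _ => sum_congr rfl fun j _ => ?_
    congr 1
    -- ip (b l) (g * b j) = ip (b j) (gᵀ * b l)
    have key : ∀ u v w : Matrix X X ℝ, ip u (w * v) = ip v (wᵀ * u) := by
      intro u v w
      simp only [ip, Matrix.mul_apply, Matrix.transpose_apply, mul_sum]
      rw [sum_congr rfl fun x _ => sum_comm]
      rw [sum_comm]
      refine sum_congr rfl fun x _ => ?_
      rw [sum_comm]
      refine sum_congr rfl fun y _ => sum_congr rfl fun z _ => ?_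
      ring
    exact key _ _ _
  have hEe : ∀ M, E M = ∑ i, ip (c i) (E M) • c i := fun M => hce _ (hEC M)
  -- entries
  have hEs : ∀ p q s t, E (Matrix.single p q 1) s t = ∑ j, b j s p * b j t q := by
    intro p q s t
    rw [hE]
    simp only [Matrix.sum_apply]
    refine sum_congr rfl fun j _ => ?_
    rw [Matrix.mul_apply, sum_eq_single q]
    · rw [Matrix.mul_single_apply_same, mul_one, Matrix.transpose_apply]
    · intro r _ hr
      rw [Matrix.mul_single_apply_of_ne, zero_mul]
      exact hr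
    · intro h
      exact absurd (mem_univ _) h
  -- trace of E
  have htr : ∑ p, ∑ q, E (Matrix.single p q 1) p q = Fintype.card X := by
    simp only [hEs]
    have e1 : ∑ p, ∑ q, ∑ j, b j p p * b j q q = ∑ j, ip (b j) 1 * ip (b j) 1 := by
      have e2 : ∀ j, ip (b j) 1 = ∑ p, b j p p := by
        intro j
        simp [ip, Matrix.one_apply]
      simp only [e2, sum_mul_sum]
      rw [sum_congr rfl fun p _ => sum_comm]
      rw [sum_comm]
    rw [e1]
    have e3 := congrArg (ip 1) (hbe 1 h1)
    rw [ip_sum_right] at e3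
    simp only [ip_smul_right] at e3
    have e4 : ip (1 : Matrix X X ℝ) 1 = Fintype.card X := by
      simp [ip, Matrix.one_apply]
    rw [← e4, e3]
    refine sum_congr rfl fun j _ => ?_
    rw [ip_comm 1 (b j)]
  -- Cauchy-Schwarz
  let u : (X × X) × (X × X) → ℝ := fun z => ∑ i, c i z.1.1 z.1.2 * c i z.2.1 z.2.2
  let w : (X × X) × (X × X) → ℝ := fun z => E (Matrix.single z.1.1 z.1.2 1) z.2.1 z.2.2
  have huw : ∑ z, u z * w z = Fintype.card X := by
    rw [← htr]
    simp only [Fintype.sum_prod_type]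
    refine sum_congr rfl fun p _ => sum_congr rfl fun q _ => ?_
    have e1 := congrFun (congrFun (hEe (Matrix.single p q 1)) p) q
    rw [e1]
    simp only [Matrix.sum_apply, Matrix.smul_apply, smul_eq_mul, u, w, ip, sum_mul]
    rw [sum_congr rfl fun s _ => sum_comm]
    rw [sum_comm]
    refine sum_congr rfl fun i _ => sum_congr rfl fun s _ => sum_congr rfl fun t _ => ?_
    ring
  have huu : ∑ z, u z * u z = Module.finrank ℝ C := by
    have e1 : ∑ z, u z * u z = ∑ i, ∑ j, ip (c i) (c j) * ip (c i) (c j) := by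
      rw [Fintype.sum_prod_type]
      simp only [u, ip_prod, sum_mul_sum]
      rw [sum_congr rfl fun p _ => sum_comm, sum_comm]
      refine sum_congr rfl fun i _ => ?_
      rw [sum_congr rfl fun p _ => sum_comm, sum_comm]
      refine sum_congr rfl fun j _ => sum_congr rfl fun p _ => sum_congr rfl fun q _ => ?_
      ring
    rw [e1]
    simp only [hco]
    simp
  have hww : ∑ z, w z * w z = Module.finrank ℝ B := by
    have e1 : ∑ z, w z * w z = ∑ i, ∑ j, ip (b i) (b j) * ip (b i) (b j) := by
      simp only [Fintype.sum_prod_type, w, hEs, ip_prod, sum_mul_sum]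
      -- ∑ p q s t i j, (b i s p * b i t q) * (b j s p * b j t q)
      rw [sum_congr rfl fun p _ => sum_congr rfl fun q _ => sum_congr rfl fun s _ => sum_comm]
      rw [sum_congr rfl fun p _ => sum_congr rfl fun q _ => sum_comm]
      rw [sum_congr rfl fun p _ => sum_comm]
      rw [sum_comm]
      refine sum_congr rfl fun i _ => ?_
      rw [sum_congr rfl fun p _ => sum_congr rfl fun q _ => sum_congr rfl fun s _ => sum_comm]
      rw [sum_congr rfl fun p _ => sum_congr rfl fun q _ => sum_comm]
      rw [sum_congr rfl fun p _ => sum_comm]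
      rw [sum_comm]
      refine sum_congr rfl fun j _ => ?_
      -- ∑ p q s t ... = ∑ s p t q
      rw [sum_congr rfl fun p _ => sum_comm]
      rw [sum_comm]
      refine sum_congr rfl fun s _ => ?_
      rw [sum_congr rfl fun p _ => sum_comm]
      rw [sum_comm]
      refine sum_congr rfl fun t _ => sum_congr rfl fun p _ => sum_congr rfl fun q _ => ?_
      ring
    rw [e1]
    simp only [hbo]
    simp
  have hcs := Finset.sum_mul_sq_le_sq_mul_sq univ u w
  rw [huw] at hcs
  simp only [sq] at hcs ⊢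
  rw [huu, hww] at hcs
  linarith

end Pool.Agent.W430.CC
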