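import Pool.Agent.W430.CC.Perm

/-!
`(dim P_{n+1})^2 ≤ dim P_n * dim P_{n+2}`.
-/

set_option autoImplicit false
set_option linter.all false

open Finset Matrix

namespace Pool.Agent.W430.CC

section ip2

variable {X Y Z : Type*} [Fintype X] [Fintype Y] [Fintype Z]

theorem ip_mul_right_eq (u : Matrix X Z ℝ) (v : Matrix X Y ℝ) (w : Matrix Y Z ℝ) :
    ip u (v * w) = ip (vᵀ * u) w := by
  simp only [ip, Matrix.mul_apply, Matrix.transpose_apply, mul_sum, sum_mul]
  rw [sum_congr rfl fun x _ => sum_comm]
  rw [sum_comm]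
  refine sum_congr rfl fun y _ => ?_
  rw [sum_comm]
  refine sum_congr rfl fun z _ => sum_congr rfl fun x _ => ?_
  ring

theorem ip_mul_left_eq (u : Matrix X Z ℝ) (v : Matrix X Y ℝ) (w : Matrix Y Z ℝ) :
    ip u (v * w) = ip (u * wᵀ) v := by
  simp only [ip, Matrix.mul_apply, Matrix.transpose_apply, mul_sum, sum_mul]
  refine sum_congr rfl fun x _ => ?_
  rw [sum_comm]
  refine sum_congr rfl fun y _ => sum_congr rfl fun z _ => ?_
  ring

end ip2

variable {k : ℕ} {I : Type*} [Fintype I] [DecidableEq I]

/-- the sandwich -/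
def sw (m m' : Matrix (Option I → Fin k) (Option I → Fin k) ℝ) :
    Matrix (Option (Option I) → Fin k) (Option (Option I) → Fin k) ℝ :=
  emb m * rho k (Equiv.swap none (some none)) * (emb m')ᵀ

/-- half of the sandwich -/
def sh (m : Matrix (Option I → Fin k) (Option I → Fin k) ℝ) :
    Matrix (Option (Option I) → Fin k) (Option (Option I) → Fin k) ℝ :=
  emb m * rho k (Equiv.swap none (some none))

theorem swap_ex (u z : Fin k) (t : I → Fin k) : (ex u (ex z t) : Option (Option I) → Fin k) ∘
    (Equiv.swap none (some none)) = ex z (ex u t) := by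
  ext o
  rcases o with _ | _ | i
  · simp
  · simp
  · rw [Function.comp_apply, Equiv.swap_apply_of_ne_of_ne (by simp) (by simp)]
    rfl

theorem sh_apply (m : Matrix (Option I → Fin k) (Option I → Fin k) ℝ)
    (z z' u : Fin k) (a : Option I → Fin k) (t : I → Fin k) :
    sh m (ex z' a) (ex z (ex u t)) = if u = z' then m a (ex z t) else 0 := by
  unfold sh
  rw [Matrix.mul_apply]
  have h3 : ∀ c : Option (Option I) → Fin k,
      (emb m (ex z' a) c * rho k (Equiv.swap none (some none)) c (ex z (ex u t)) : ℝ) =
        if c = ex u (ex z t) then emb m (ex z' a) c else 0 := by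
    intro c
    have h4 : (ex z (ex u t) = c ∘ (Equiv.swap none (some none))) ↔ c = ex u (ex z t) := by
      constructor
      · intro h
        have h6 : c ∘ (Equiv.swap none (some none)) = (ex u (ex z t)) ∘
          (Equiv.swap none (some none)) := by rw [← h, swap_ex]
        exact (Equiv.surjective _).injective_comp_right h6
      · rintro rfl
        exact (swap_ex _ _ _).symm
    simp only [rho, h4]
    split_ifs <;> simp
  simp only [h3, sum_ite_eq', mem_univ, if_true, emb_apply]
  simp only [eq_comm]

/-- the entries of the sandwich -/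
theorem sandwich_apply (m m' : Matrix (Option I → Fin k) (Option I → Fin k) ℝ)
    (z z' : Fin k) (a a' : Option I → Fin k) :
    sw m m' (ex z' a) (ex z a') = ∑ t, m a (ex z t) * m' a' (ex z' t) := by
  change (sh m * (emb m')ᵀ) (ex z' a) (ex z a') = _
  rw [Matrix.mul_apply, sum_ex]
  have h1 : ∀ (w : Fin k) (b : Option I → Fin k),
      sh m (ex z' a) (ex w b) * (emb m')ᵀ (ex w b) (ex z a') = if z = w then
        sh m (ex z' a) (ex z b) * m' a' b else 0 := by
    intro w b
    rw [Matrix.transpose_apply, emb_apply]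
    split_ifs with h
    · subst h; rfl
    · rw [mul_zero]
  simp only [h1]
  rw [sum_eq_single z]
  · simp only [if_true]
    rw [sum_ex]
    simp only [sh_apply]
    rw [sum_eq_single z']
    · simp only [if_true]
    · intro w _ hw
      simp [hw]
    · intro h; exact absurd (mem_univ _) h
  · intro w _ hw
    simp [hw.symm]
  · intro h; exact absurd (mem_univ _) h

theorem mul_emb_apply (m : Matrix (Option I → Fin k) (Option I → Fin k) ℝ)
    (b : Matrix (I → Fin k) (I → Fin k) ℝ) (a : Option I → Fin k) (z : Fin k) (t' : I → Fin k) :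
    (m * emb b) a (ex z t') = ∑ t, m a (ex z t) * b t t' := by
  rw [Matrix.mul_apply, sum_ex, sum_eq_single z]
  · simp only [emb_apply, if_true]
  · intro w _ hw
    simp [emb_apply, hw]
  · intro h; exact absurd (mem_univ _) h

/-- log-convexity of the dimensions -/
theorem finrank_PP_sq_le :
    (Module.finrank ℝ (PP k (Option I)) : ℝ) ^ 2 ≤
      Module.finrank ℝ (PP k I) * Module.finrank ℝ (PP k (Option (Option I))) := by
  obtain ⟨d, hd, m, hm, hmo, hme⟩ : ∃ d : ℕ, d = Module.finrank ℝ (PP k (Option I)) ∧
      ∃ m : Fin d → Matrix (Option I → Fin k) (Option I → Fin k) ℝ, (∀ i, m i ∈ PP k (Option I)) ∧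
      (∀ i j, ip (m i) (m j) = if i = j then 1 else 0) ∧
      (∀ v ∈ PP k (Option I), v = ∑ i, ip (m i) v • m i) :=
    ⟨_, rfl, exists_onb (PP k (Option I))⟩
  rw [← hd]
  -- the right regular representation
  let R : Matrix (I → Fin k) (I → Fin k) ℝ →ₗ[ℝ] Matrix (Fin d) (Fin d) ℝ :=
    { toFun := fun b x y => ip (m x) (m y * emb b)
      map_add' := by
        intro b b'
        ext x y
        change ip (m x) (m y * emb (b + b')) = ip (m x) (m y * emb b) + ip (m x) (m y * emb b')
        rw [map_add, mul_add, ip_add_right]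
      map_smul' := by
        intro r b
        ext x y
        change ip (m x) (m y * emb (r • b)) = r * ip (m x) (m y * emb b)
        rw [map_smul, Matrix.mul_smul, ip_smul_right] }
  have hR : ∀ b x y, R b x y = ip (m x) (m y * emb b) := fun b x y => rfl
  have hmul : ∀ y, ∀ b ∈ PP k I, m y * emb b = ∑ x, R b x y • m x := by
    intro y b hb
    exact hme _ (mul_mem_PP (hm y) (emb_mem hb))
  have hRmul : ∀ b ∈ PP k I, ∀ b' ∈ PP k I, R b * R b' = R (b' * b) := by
    intro b hb b' hb'
    ext x z
    rw [Matrix.mul_apply, hR, emb_mul, ← Matrix.mul_assoc, hmul z b' hb', Matrix.sum_mul,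
      ip_sum_right]
    refine sum_congr rfl fun y _ => ?_
    rw [Matrix.smul_mul, ip_smul_right, hR b x y, mul_comm]
  have hRT : ∀ b, (R b)ᵀ = R bᵀ := by
    intro b
    ext x y
    rw [Matrix.transpose_apply, hR, hR, ip_mul_left_eq, emb_transpose, ip_comm]
  let B : Submodule ℝ (Matrix (Fin d) (Fin d) ℝ) := (PP k I).map R
  let C : Submodule ℝ (Matrix (Fin d) (Fin d) ℝ) :=
    { carrier := {c | ∀ b ∈ B, b * c = c * b}
      add_mem' := by
        intro c c' hc hc' b hb
        rw [mul_add, add_mul, hc b hb, hc' b hb]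
      zero_mem' := by
        intro b _
        rw [mul_zero, zero_mul]
      smul_mem' := by
        intro r c hc b hb
        rw [Matrix.mul_smul, Matrix.smul_mul, hc b hb] }
  have hG := lemG B C ?_ ?_ ?_ (fun c hc => hc)
  · have hB : Module.finrank ℝ B ≤ Module.finrank ℝ (PP k I) := Submodule.finrank_map_le _ _
    -- the injection
    let Θ : Matrix (Fin d) (Fin d) ℝ →ₗ[ℝ]
        Matrix (Option (Option I) → Fin k) (Option (Option I) → Fin k) ℝ :=
      { toFun := fun φ => ∑ x, ∑ y, φ x y • sw (m x) (m y)
        map_add' := by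
          intro φ ψ
          simp only [Matrix.add_apply, add_smul, sum_add_distrib]
        map_smul' := by
          intro r φ
          simp only [Matrix.smul_apply, smul_eq_mul, mul_smul, smul_sum, RingHom.id_apply] }
    have hΘ : ∀ φ, Θ φ = ∑ x, ∑ y, φ x y • sw (m x) (m y) := fun φ => rfl
    have hΘmem : ∀ φ, Θ φ ∈ PP k (Option (Option I)) := by
      intro φ
      rw [hΘ]
      refine Submodule.sum_mem _ fun x _ => Submodule.sum_mem _ fun y _ =>
        Submodule.smul_mem _ _ ?_
      exact mul_mem_PP (mul_mem_PP (emb_mem (hm x)) (rho_mem _))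
        (transpose_mem_PP (emb_mem (hm y)))
    have hinj : ∀ φ ∈ C, Θ φ = 0 → φ = 0 := by
      intro φ hφ h0
      have h : ∀ (z z' : Fin k) (a a' : Option I → Fin k),
          ∑ x, ∑ y, φ x y * ∑ t, m x a (ex z t) * m y a' (ex z' t) = 0 := by
        intro z z' a a'
        have h1 := congrFun (congrFun h0 (ex z' a)) (ex z a')
        rw [hΘ] at h1
        simp only [Matrix.sum_apply, Matrix.smul_apply, sandwich_apply, smul_eq_mul,
          Matrix.zero_apply] at h1
        exact h1
      let b : Fin d → Fin d → Matrix (I → Fin k) (I → Fin k) ℝ := fun y y0 => ptr ((m y)ᵀ * m y0)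
      have hb : ∀ y y0, b y y0 ∈ PP k I := fun y y0 =>
        ptr_mem (mul_mem_PP (transpose_mem_PP (hm y)) (hm y0))
      have hbe : ∀ y y0 t t', b y y0 t t' =
          ∑ z', ∑ a', m y a' (ex z' t) * m y0 a' (ex z' t') := by
        intro y y0 t t'
        simp only [b, ptr_apply, Matrix.mul_apply, Matrix.transpose_apply]
      have h2 : ∀ y0, ∑ x, ∑ y, φ x y • (m x * emb (b y y0)) = 0 := by
        intro y0
        ext a c
        obtain ⟨z, t', rfl⟩ := ex_surj c
        simp only [Matrix.sum_apply, Matrix.smul_apply, smul_eq_mul, mul_emb_apply, hbe,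
          Matrix.zero_apply]
        have h3 : ∑ z', ∑ a', m y0 a' (ex z' t') *
            (∑ x, ∑ y, φ x y * ∑ t, m x a (ex z t) * m y a' (ex z' t)) = 0 := by
          refine sum_eq_zero fun z' _ => sum_eq_zero fun a' _ => ?_
          rw [h z z' a a', mul_zero]
        rw [← h3]
        simp only [mul_sum]
        symm
        rw [sum_congr rfl fun z' _ => sum_comm]
        rw [sum_comm]
        refine sum_congr rfl fun x _ => ?_
        rw [sum_congr rfl fun z' _ => sum_comm]
        rw [sum_comm]
        refine sum_congr rfl fun y _ => ?_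
        rw [sum_congr rfl fun z' _ => sum_comm]
        rw [sum_comm]
        refine sum_congr rfl fun t _ => sum_congr rfl fun z' _ => sum_congr rfl fun a' _ => ?_
        ring
      have h4 : ∀ y0 w, ∑ x, φ w x * ∑ y, R (b y y0) x y = 0 := by
        intro y0 w
        have h5 := congrArg (ip (m w)) (h2 y0)
        simp only [ip_sum_right, ip_smul_right] at h5
        have h6 : ip (m w) 0 = 0 := by simp [ip]
        rw [h6] at h5
        have h7 : ∑ y, (R (b y y0) * φ) w y = 0 := by
          rw [← h5, sum_comm]
          refine sum_congr rfl fun y _ => ?_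
          rw [Matrix.mul_apply]
          refine sum_congr rfl fun x _ => ?_
          rw [hR, mul_comm]
        rw [← h7]
        simp only [mul_sum]
        rw [sum_comm]
        refine sum_congr rfl fun y _ => ?_
        rw [hφ _ ⟨_, hb y y0, rfl⟩, Matrix.mul_apply]
      have h8 : ∀ x y0, ∑ y, R (b y y0) x y = ∑ y, ip (b y x) (b y y0) := by
        intro x y0
        refine sum_congr rfl fun y _ => ?_
        rw [hR, ip_mul_right_eq, ip_emb]
      -- each row vanishes
      ext w w'
      let v : Fin d → ℝ := φ w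
      let mv : Matrix (Option I → Fin k) (Option I → Fin k) ℝ := ∑ x, v x • m x
      have h9 : ∀ y, ptr ((m y)ᵀ * mv) = ∑ x, v x • b y x := by
        intro y
        simp only [mv, Matrix.mul_sum, map_sum, Matrix.mul_smul, map_smul, b]
      have h10 : ∑ y, ip (∑ x, v x • b y x) (∑ x, v x • b y x) = 0 := by
        have h11 : ∑ y0, (∑ x, v x * ∑ y, R (b y y0) x y) * v y0 = 0 := by
          refine sum_eq_zero fun y0 _ => ?_
          rw [h4 y0 w, zero_mul]
        rw [← h11]
        simp only [ip_sum_left, ip_sum_right, ip_smul_left, ip_smul_right, h8, mul_sum, sum_mul]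
        rw [sum_comm, sum_congr rfl fun x _ => sum_comm, sum_comm]
        refine sum_congr rfl fun y0 _ => sum_congr rfl fun x _ => sum_congr rfl fun y _ => ?_
        rw [ip_comm]
        ring
      have h12 : ∀ y, ptr ((m y)ᵀ * mv) = 0 := by
        intro y
        rw [h9]
        exact eq_zero_of_ip_self ((sum_eq_zero_iff_of_nonneg fun y _ =>
          ip_self_nonneg _).1 h10 y (mem_univ y))
      have h13 : ptr (mvᵀ * mv) = 0 := by
        have : mvᵀ * mv = ∑ y, v y • ((m y)ᵀ * mv) := by
          conv_lhs => rw [show mvᵀ = ∑ y, v y • (m y)ᵀ by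
            simp only [mv, Matrix.transpose_sum, Matrix.transpose_smul]]
          rw [Matrix.sum_mul]
          refine sum_congr rfl fun y _ => ?_
          rw [Matrix.smul_mul]
        rw [this, map_sum]
        refine sum_eq_zero fun y _ => ?_
        rw [map_smul, h12, smul_zero]
      have h14 : ip mv mv = 0 := by
        have h15 : ip mv (mv * 1) = ip (mvᵀ * mv) 1 := ip_mul_right_eq mv mv 1
        rw [mul_one] at h15
        rw [h15, ← emb_one, ip_emb, h13]
        simp [ip]
      have h16 : mv = 0 := eq_zero_of_ip_self h14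
      have h17 : v w' = ip (m w') mv := by
        simp only [mv, ip_sum_right, ip_smul_right, hmo]
        simp
      change v w' = 0
      rw [h17, h16]
      simp [ip]
    have hC : Module.finrank ℝ C ≤ Module.finrank ℝ (PP k (Option (Option I))) := by
      let g : C →ₗ[ℝ] PP k (Option (Option I)) := (Θ.codRestrict _ hΘmem).comp C.subtype
      apply LinearMap.finrank_le_finrank_of_injective (f := g)
      rw [← LinearMap.ker_eq_bot, LinearMap.ker_eq_bot']
      intro φ hφ
      have h1 : Θ φ = 0 := congrArg Subtype.val hφ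
      exact Subtype.ext (hinj φ.1 φ.2 h1)
    have h1 : (Fintype.card (Fin d) : ℝ) ^ 2 = (d : ℝ) ^ 2 := by rw [Fintype.card_fin]
    rw [← h1]
    refine hG.trans ?_
    gcongr
  · refine ⟨1, one_mem_PP, ?_⟩
    ext x y
    rw [hR, emb_one, mul_one, hmo, Matrix.one_apply]
  · rintro _ ⟨a, ha, rfl⟩ _ ⟨b, hb, rfl⟩
    rw [hRmul a ha b hb]
    exact ⟨_, mul_mem_PP hb ha, rfl⟩
  · rintro _ ⟨a, ha, rfl⟩
    rw [hRT]
    exact ⟨_, transpose_mem_PP ha, rfl⟩

end Pool.Agent.W430.CC
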