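import Pool.Agent.W430.CC.LinG

/-!
The spaces spanned by the permutations of the factors of a tensor power, partial traces, and the
log-convexity of their dimensions.
-/

set_option autoImplicit false
set_option linter.all false

open Finset Matrix

namespace Pool.Agent.W430.CC

section defs

variable (k : ℕ) {J : Type*} [Fintype J] [DecidableEq J]

/-- the permutation matrix on tensors -/
def rho (s : Equiv.Perm J) : Matrix (J → Fin k) (J → Fin k) ℝ :=
  fun a b => if b = a ∘ s then 1 else 0

theorem rho_one : rho k (1 : Equiv.Perm J) = 1 := by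
  ext a b
  simp [rho, Matrix.one_apply, eq_comm]

theorem rho_mul (s t : Equiv.Perm J) : rho k (s * t) = rho k s * rho k t := by
  ext a b
  simp only [rho, Matrix.mul_apply, ite_mul, one_mul, zero_mul, Finset.sum_ite_eq', mem_univ,
    if_true]
  rfl

theorem rho_transpose (s : Equiv.Perm J) : (rho k s)ᵀ = rho k s⁻¹ := by
  ext a b
  simp only [rho, Matrix.transpose_apply]
  congr 1
  rw [eq_iff_iff]
  constructor
  · rintro rfl
    ext i
    simp
  · rintro rfl
    ext i
    simp

variable (J) in
/-- The span of the permutations. -/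
def PP : Submodule ℝ (Matrix (J → Fin k) (J → Fin k) ℝ) :=
  Submodule.span ℝ (Set.range (rho k : Equiv.Perm J → _))

variable {k}

theorem rho_mem (s : Equiv.Perm J) : rho k s ∈ PP k J := Submodule.subset_span ⟨s, rfl⟩

theorem one_mem_PP : (1 : Matrix (J → Fin k) (J → Fin k) ℝ) ∈ PP k J := by
  rw [← rho_one]; exact rho_mem 1

theorem mul_mem_PP {a b : Matrix (J → Fin k) (J → Fin k) ℝ} (ha : a ∈ PP k J) (hb : b ∈ PP k J) :
    a * b ∈ PP k J := by
  induction ha using Submodule.span_induction with
  | mem x hx =>
    obtain ⟨s, rfl⟩ := hx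
    induction hb using Submodule.span_induction with
    | mem y hy =>
      obtain ⟨t, rfl⟩ := hy
      rw [← rho_mul]
      exact rho_mem _
    | zero => rw [mul_zero]; exact zero_mem _
    | add x y _ _ hx hy => rw [mul_add]; exact add_mem hx hy
    | smul r x _ hx => rw [Matrix.mul_smul]; exact Submodule.smul_mem _ _ hx
  | zero => rw [zero_mul]; exact zero_mem _
  | add x y _ _ hx hy => rw [add_mul]; exact add_mem hx hy
  | smul r x _ hx => rw [Matrix.smul_mul]; exact Submodule.smul_mem _ _ hx

theorem transpose_mem_PP {a : Matrix (J → Fin k) (J → Fin k) ℝ} (ha : a ∈ PP k J) :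
    aᵀ ∈ PP k J := by
  induction ha using Submodule.span_induction with
  | mem x hx =>
    obtain ⟨s, rfl⟩ := hx
    rw [rho_transpose]
    exact rho_mem _
  | zero => rw [Matrix.transpose_zero]; exact zero_mem _
  | add x y _ _ hx hy => rw [Matrix.transpose_add]; exact add_mem hx hy
  | smul r x _ hx => rw [Matrix.transpose_smul]; exact Submodule.smul_mem _ _ hx

end defs

section option

variable {k : ℕ} {J : Type*}

/-- extension of a tuple by one more entry -/
def ex (z : Fin k) (a : J → Fin k) : Option J → Fin k := fun o => o.elim z a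

@[simp] theorem ex_none (z : Fin k) (a : J → Fin k) : ex z a none = z := rfl
@[simp] theorem ex_some (z : Fin k) (a : J → Fin k) (j : J) : ex z a (some j) = a j := rfl

/-- the equivalence -/
def exE : Fin k × (J → Fin k) ≃ (Option J → Fin k) where
  toFun p := ex p.1 p.2
  invFun a := (a none, fun j => a (some j))
  left_inv p := rfl
  right_inv a := by
    ext o
    cases o <;> rfl

theorem ex_surj (a : Option J → Fin k) : ∃ z b, a = ex z b :=
  ⟨a none, fun j => a (some j), (exE.right_inv a).symm⟩

theorem ex_inj {z z' : Fin k} {a a' : J → Fin k} : ex z a = ex z' a' ↔ z = z' ∧ a = a' := by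
  constructor
  · intro h
    have := exE.injective (a₁ := (z, a)) (a₂ := (z', a')) h
    simpa using this
  · rintro ⟨rfl, rfl⟩
    rfl

variable [Fintype J] [DecidableEq J]

theorem sum_ex {M : Type*} [AddCommMonoid M] (f : (Option J → Fin k) → M) :
    ∑ a, f a = ∑ z, ∑ b, f (ex z b) := by
  rw [← exE.sum_comp, Fintype.sum_prod_type]
  rfl

/-- partial trace -/
def ptr : Matrix (Option J → Fin k) (Option J → Fin k) ℝ →ₗ[ℝ]
    Matrix (J → Fin k) (J → Fin k) ℝ where
  toFun c := fun a b => ∑ z, c (ex z a) (ex z b)
  map_add' c d := by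
    ext a b
    exact sum_add_distrib
  map_smul' r c := by
    ext a b
    exact (mul_sum _ _ _).symm

theorem ptr_apply (c : Matrix (Option J → Fin k) (Option J → Fin k) ℝ) (a b : J → Fin k) :
    ptr c a b = ∑ z, c (ex z a) (ex z b) := rfl

/-- tensoring with the identity -/
def emb : Matrix (J → Fin k) (J → Fin k) ℝ →ₗ[ℝ]
    Matrix (Option J → Fin k) (Option J → Fin k) ℝ where
  toFun c := fun a b => if a none = b none then c (fun j => a (some j)) (fun j => b (some j)) else 0
  map_add' c d := by
    ext a b
    change (if a none = b none then _ + _ else (0 : ℝ)) = (if a none = b none then _ else (0 : ℝ)) +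
      (if a none = b none then _ else (0 : ℝ))
    split_ifs
    · rfl
    · rw [add_zero]
  map_smul' r c := by
    ext a b
    change (if a none = b none then _ * _ else (0 : ℝ)) =
      r * (if a none = b none then _ else (0 : ℝ))
    split_ifs
    · rfl
    · rw [mul_zero]

theorem emb_apply (c : Matrix (J → Fin k) (J → Fin k) ℝ) (z z' : Fin k) (a b : J → Fin k) :
    emb c (ex z a) (ex z' b) = if z = z' then c a b else 0 := rfl

theorem emb_rho (s : Equiv.Perm J) : emb (rho k s) = rho k (Equiv.optionCongr s) := by
  ext a b
  obtain ⟨z, a, rfl⟩ := ex_surj a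
  obtain ⟨z', b, rfl⟩ := ex_surj b
  rw [emb_apply]
  simp only [rho]
  have : ex z a ∘ (Equiv.optionCongr s) = ex z (a ∘ s) := by
    ext o
    cases o <;> rfl
  simp only [this, ex_inj]
  by_cases h : z = z'
  · subst h
    simp
  · rw [if_neg h, if_neg]
    rintro ⟨h1, -⟩
    exact h h1.symm

theorem emb_one : emb (1 : Matrix (J → Fin k) (J → Fin k) ℝ) = 1 := by
  rw [← rho_one, emb_rho, ← rho_one]
  congr 1
  ext o
  cases o <;> simp

theorem emb_mul (a b : Matrix (J → Fin k) (J → Fin k) ℝ) : emb (a * b) = emb a * emb b := by
  ext x y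
  obtain ⟨z, x, rfl⟩ := ex_surj x
  obtain ⟨z', y, rfl⟩ := ex_surj y
  rw [emb_apply, Matrix.mul_apply, Matrix.mul_apply, sum_ex]
  simp only [emb_apply]
  by_cases h : z = z'
  · subst h
    rw [if_pos rfl, sum_eq_single z]
    · simp
    · intro w _ hw
      simp [hw, hw.symm]
    · intro h
      exact absurd (mem_univ _) h
  · rw [if_neg h]
    symm
    apply sum_eq_zero
    intro w _
    apply sum_eq_zero
    intro t _
    by_cases h1 : z = w
    · subst h1
      simp [h]
    · simp [h1]

theorem emb_transpose (a : Matrix (J → Fin k) (J → Fin k) ℝ) : emb aᵀ = (emb a)ᵀ := by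
  ext x y
  obtain ⟨z, x, rfl⟩ := ex_surj x
  obtain ⟨z', y, rfl⟩ := ex_surj y
  rw [emb_apply, Matrix.transpose_apply, Matrix.transpose_apply, emb_apply]
  simp [eq_comm]

theorem emb_mem {a : Matrix (J → Fin k) (J → Fin k) ℝ} (ha : a ∈ PP k J) :
    emb a ∈ PP k (Option J) := by
  induction ha using Submodule.span_induction with
  | mem x hx =>
    obtain ⟨s, rfl⟩ := hx
    rw [emb_rho]
    exact rho_mem _
  | zero => rw [map_zero]; exact zero_mem _
  | add x y _ _ hx hy => rw [map_add]; exact add_mem hx hy
  | smul r x _ hx => rw [map_smul]; exact Submodule.smul_mem _ _ hx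

theorem ip_emb (c : Matrix (Option J → Fin k) (Option J → Fin k) ℝ)
    (b : Matrix (J → Fin k) (J → Fin k) ℝ) : ip c (emb b) = ip (ptr c) b := by
  simp only [ip, sum_ex, emb_apply, ptr_apply, sum_mul]
  have : ∀ z : Fin k, ∀ x : J → Fin k, (∑ z', ∑ y, c (ex z x) (ex z' y) *
      if z = z' then b x y else 0) = ∑ y, c (ex z x) (ex z y) * b x y := by
    intro z x
    rw [sum_eq_single z]
    · simp
    · intro w _ hw
      simp [hw.symm]
    · intro h
      exact absurd (mem_univ _) h
  simp only [this]
  rw [sum_comm]
  exact sum_congr rfl fun x _ => sum_comm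

/-- the partial trace of a permutation -/
theorem ptr_rho (s : Equiv.Perm (Option J)) :
    ptr (rho k s) = (if s none = none then (k : ℝ) else 1) • rho k (Equiv.removeNone s) := by
  ext a b
  rw [ptr_apply, Matrix.smul_apply, smul_eq_mul]
  simp only [rho]
  by_cases h : s none = none
  · rw [if_pos h]
    have h1 : ∀ z : Fin k, (ex z b = ex z a ∘ s) ↔ b = a ∘ (Equiv.removeNone s) := by
      intro z
      have h2 : ex z a ∘ s = ex z (a ∘ (Equiv.removeNone s)) := by
        ext o
        cases o with
        | none => simp [h]
        | some j =>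
          have h3 : s (some j) ≠ none := by
            intro h4
            rw [← h] at h4
            exact absurd (s.injective h4) (by simp)
          obtain ⟨i, hi⟩ := Option.ne_none_iff_exists'.1 h3
          have h5 := Equiv.removeNone_some s ⟨i, hi⟩
          simp only [Function.comp_apply, ex_some, ← h5]
      rw [h2, ex_inj]
      simp
    simp only [h1, sum_const, card_univ, Fintype.card_fin, nsmul_eq_mul]
  · rw [if_neg h, one_mul]
    obtain ⟨i, hi⟩ := Option.ne_none_iff_exists'.1 h
    have h1 : ∀ z : Fin k, (ex z b = ex z a ∘ s) ↔ (z = a i ∧ b = a ∘ (Equiv.removeNone s)) := by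
      intro z
      have h2 : ex z a ∘ s = ex (a i) (fun j => ex z a (s (some j))) := by
        ext o
        cases o with
        | none => simp [hi]
        | some j => simp
      rw [h2, ex_inj]
      refine and_congr_right fun hz => ?_
      subst hz
      have h3 : (fun j => ex (a i) a (s (some j))) = a ∘ (Equiv.removeNone s) := by
        ext j
        by_cases h4 : s (some j) = none
        · have h5 := Equiv.removeNone_none s h4
          rw [h4, ex_none]
          rw [hi] at h5
          simp only [Function.comp_apply]
          rw [Option.some_injective _ h5]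
        · obtain ⟨i', hi'⟩ := Option.ne_none_iff_exists'.1 h4
          have h5 := Equiv.removeNone_some s ⟨i', hi'⟩
          simp only [Function.comp_apply, ← h5, ex_some]
      rw [h3]
    simp only [h1]
    by_cases hb : b = a ∘ (Equiv.removeNone s)
    · simp [hb]
    · simp [hb]

theorem ptr_mem {c : Matrix (Option J → Fin k) (Option J → Fin k) ℝ} (hc : c ∈ PP k (Option J)) :
    ptr c ∈ PP k J := by
  induction hc using Submodule.span_induction with
  | mem x hx =>
    obtain ⟨s, rfl⟩ := hx
    rw [ptr_rho]
    exact Submodule.smul_mem _ _ (rho_mem _)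
  | zero => rw [map_zero]; exact zero_mem _
  | add x y _ _ hx hy => rw [map_add]; exact add_mem hx hy
  | smul r x _ hx => rw [map_smul]; exact Submodule.smul_mem _ _ hx

end option

end Pool.Agent.W430.CC
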