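import Pool.Agent.W430.CC.Cond

/-!
Tensors and multilinear functions; contraction of spans of permutations.
-/

set_option autoImplicit false
set_option linter.all false

open Finset Matrix

namespace Pool.Agent.W430.CC

section ev

variable {k : ℕ} {J : Type*} [Fintype J] [DecidableEq J]

/-- the multilinear function given by a tensor -/
def ev : Matrix (J → Fin k) (J → Fin k) ℝ →ₗ[ℝ] ((J → Matrix (Fin k) (Fin k) ℝ) → ℝ) where
  toFun c := fun x => ∑ a, ∑ b, c a b * ∏ j, x j (a j) (b j)
  map_add' c d := by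
    ext x
    simp only [Matrix.add_apply, add_mul, sum_add_distrib, Pi.add_apply]
  map_smul' r c := by
    ext x
    simp only [Matrix.smul_apply, smul_eq_mul, mul_assoc, mul_sum, Pi.smul_apply,
      RingHom.id_apply]

theorem ev_apply (c : Matrix (J → Fin k) (J → Fin k) ℝ) (x : J → Matrix (Fin k) (Fin k) ℝ) :
    ev c x = ∑ a, ∑ b, c a b * ∏ j, x j (a j) (b j) := rfl

theorem ev_rho (s : Equiv.Perm J) : ev (rho k s) = T s := by
  ext x
  rw [ev_apply, T]
  refine sum_congr rfl fun a _ => ?_
  simp only [rho, ite_mul, one_mul, zero_mul, sum_ite_eq', mem_univ, if_true]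
  rfl

theorem ev_single (c : Matrix (J → Fin k) (J → Fin k) ℝ) (a b : J → Fin k) :
    ev c (fun j => Matrix.single (a j) (b j) 1) = c a b := by
  have hz : ∀ a' b' : J → Fin k, (a' ≠ a ∨ b' ≠ b) →
      ∏ j, (Matrix.single (a j) (b j) (1 : ℝ)) (a' j) (b' j) = 0 := by
    intro a' b' h
    have : ∃ j, ¬ (a j = a' j ∧ b j = b' j) := by
      by_contra hcon
      push Not at hcon
      rcases h with h | h
      · exact h (funext fun j => (hcon j).1.symm)
      · exact h (funext fun j => (hcon j).2.symm)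
    obtain ⟨j, hj⟩ := this
    exact prod_eq_zero (mem_univ j) (Matrix.single_apply_of_ne _ _ _ _ _ hj)
  rw [ev_apply, sum_eq_single a, sum_eq_single b]
  · simp
  · intro b' _ hb'
    rw [hz a b' (Or.inr hb'), mul_zero]
  · intro h; exact absurd (mem_univ _) h
  · intro a' _ ha'
    refine sum_eq_zero fun b' _ => ?_
    rw [hz a' b' (Or.inl ha'), mul_zero]
  · intro h; exact absurd (mem_univ _) h

theorem ev_injective : Function.Injective
    (ev : Matrix (J → Fin k) (J → Fin k) ℝ →ₗ[ℝ] ((J → Matrix (Fin k) (Fin k) ℝ) → ℝ)) := by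
  intro c d h
  ext a b
  rw [← ev_single c a b, ← ev_single d a b, h]

variable (k J) in
/-- the span of the transitive permutations -/
def Cy : Submodule ℝ (Matrix (J → Fin k) (J → Fin k) ℝ) :=
  Submodule.span ℝ {c | ∃ s : Equiv.Perm J, Trans s ∧ c = rho k s}

theorem map_Cy : (Cy k J).map ev = FCy k J := by
  unfold Cy FCy
  rw [Submodule.map_span]
  congr 1
  ext f
  constructor
  · rintro ⟨_, ⟨s, hs, rfl⟩, rfl⟩
    exact ⟨s, hs, ev_rho s⟩
  · rintro ⟨s, hs, rfl⟩
    exact ⟨_, ⟨s, hs, rfl⟩, ev_rho s⟩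

theorem mem_Cy {c : Matrix (J → Fin k) (J → Fin k) ℝ} : c ∈ Cy k J ↔ ev c ∈ FCy k J := by
  rw [← map_Cy]
  constructor
  · intro h
    exact Submodule.mem_map_of_mem h
  · rintro ⟨d, hd, h⟩
    rwa [← ev_injective h]

theorem Cy_le_PP : Cy k J ≤ PP k J := by
  unfold Cy PP
  apply Submodule.span_mono
  rintro _ ⟨s, _, rfl⟩
  exact ⟨s, rfl⟩

end ev

section place

variable {k : ℕ} {A B : Type*} [Fintype A] [DecidableEq A] [Fintype B] [DecidableEq B]

/-- relabelling -/
def place (e : A ≃ B) : Matrix (A → Fin k) (A → Fin k) ℝ ≃ₗ[ℝ]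
    Matrix (B → Fin k) (B → Fin k) ℝ :=
  Matrix.reindexLinearEquiv ℝ ℝ (e.arrowCongr (Equiv.refl (Fin k)))
    (e.arrowCongr (Equiv.refl (Fin k)))

theorem place_apply (e : A ≃ B) (c : Matrix (A → Fin k) (A → Fin k) ℝ) (a b : B → Fin k) :
    place e c a b = c (a ∘ e) (b ∘ e) := rfl

theorem place_rho (e : A ≃ B) (s : Equiv.Perm A) :
    place e (rho k s) = rho k (e.permCongr s) := by
  ext a b
  rw [place_apply]
  simp only [rho]
  congr 1
  rw [eq_iff_iff]
  constructor
  · intro h
    ext j'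
    have := congrFun h (e.symm j')
    simpa [Equiv.permCongr_apply] using congrArg Fin.val this
  · intro h
    ext j
    have := congrFun h (e j)
    simpa [Equiv.permCongr_apply] using congrArg Fin.val this

theorem place_mem_PP (e : A ≃ B) {c : Matrix (A → Fin k) (A → Fin k) ℝ} (hc : c ∈ PP k A) :
    place e c ∈ PP k B := by
  induction hc using Submodule.span_induction with
  | mem x hx =>
    obtain ⟨s, rfl⟩ := hx
    rw [place_rho]
    exact rho_mem _
  | zero => rw [map_zero]; exact zero_mem _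
  | add x y _ _ hx hy => rw [map_add]; exact add_mem hx hy
  | smul r x _ hx => rw [map_smul]; exact Submodule.smul_mem _ _ hx

theorem place_mem_Cy (e : A ≃ B) {c : Matrix (A → Fin k) (A → Fin k) ℝ} (hc : c ∈ Cy k A) :
    place e c ∈ Cy k B := by
  induction hc using Submodule.span_induction with
  | mem x hx =>
    obtain ⟨s, hs, rfl⟩ := hx
    rw [place_rho]
    exact Submodule.subset_span ⟨_, trans_congr hs e, rfl⟩
  | zero => rw [map_zero]; exact zero_mem _
  | add x y _ _ hx hy => rw [map_add]; exact add_mem hx hy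
  | smul r x _ hx => rw [map_smul]; exact Submodule.smul_mem _ _ hx

theorem place_symm_place (e : A ≃ B) (c : Matrix (A → Fin k) (A → Fin k) ℝ) :
    place e.symm (place e c) = c := by
  ext a b
  rw [place_apply, place_apply]
  congr 1
  · ext i; simp
  · ext i; simp

theorem place_place_symm (e : A ≃ B) (c : Matrix (B → Fin k) (B → Fin k) ℝ) :
    place e (place e.symm c) = c := by
  ext a b
  rw [place_apply, place_apply]
  congr 1
  · ext i; simp
  · ext i; simp

theorem ip_place (e : A ≃ B) (c : Matrix (B → Fin k) (B → Fin k) ℝ)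
    (d : Matrix (A → Fin k) (A → Fin k) ℝ) : ip c (place e d) = ip (place e.symm c) d := by
  unfold ip
  rw [← (e.arrowCongr (Equiv.refl (Fin k))).sum_comp]
  refine sum_congr rfl fun a _ => ?_
  rw [← (e.arrowCongr (Equiv.refl (Fin k))).sum_comp]
  refine sum_congr rfl fun b _ => ?_
  rw [place_apply, place_apply]
  congr 2
  · ext i
    simp [Equiv.arrowCongr]
  · ext i
    simp [Equiv.arrowCongr]

theorem finrank_Cy_congr (e : A ≃ B) :
    Module.finrank ℝ (Cy k A) = Module.finrank ℝ (Cy k B) := by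
  have h2 : (Cy k A).map ((place e : Matrix (A → Fin k) (A → Fin k) ℝ ≃ₗ[ℝ] _) :
      Matrix (A → Fin k) (A → Fin k) ℝ →ₗ[ℝ] _) = Cy k B := by
    apply le_antisymm
    · rintro _ ⟨c, hc, rfl⟩
      exact place_mem_Cy e hc
    · intro c hc
      exact ⟨place e.symm c, place_mem_Cy e.symm hc, place_place_symm e c⟩
  rw [← h2]
  exact (LinearEquiv.finrank_map_eq _ _).symm

end place

section box

variable {k : ℕ} {M J : Type*} [Fintype M] [DecidableEq M] [Fintype J] [DecidableEq J]

/-- tensor product -/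
def box (h : Matrix (M → Fin k) (M → Fin k) ℝ) (c : Matrix (J → Fin k) (J → Fin k) ℝ) :
    Matrix (M ⊕ J → Fin k) (M ⊕ J → Fin k) ℝ :=
  fun a b => h (a ∘ Sum.inl) (b ∘ Sum.inl) * c (a ∘ Sum.inr) (b ∘ Sum.inr)

theorem box_apply (h : Matrix (M → Fin k) (M → Fin k) ℝ) (c : Matrix (J → Fin k) (J → Fin k) ℝ)
    (a b : M → Fin k) (a' b' : J → Fin k) :
    box h c (Sum.elim a a') (Sum.elim b b') = h a b * c a' b' := rfl

theorem box_add_right (h : Matrix (M → Fin k) (M → Fin k) ℝ)
    (c d : Matrix (J → Fin k) (J → Fin k) ℝ) : box h (c + d) = box h c + box h d := by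
  ext a b
  simp only [box, Matrix.add_apply]
  ring

theorem box_smul_right (h : Matrix (M → Fin k) (M → Fin k) ℝ) (r : ℝ)
    (c : Matrix (J → Fin k) (J → Fin k) ℝ) : box h (r • c) = r • box h c := by
  ext a b
  simp only [box, Matrix.smul_apply, smul_eq_mul]
  ring

theorem box_zero_right (h : Matrix (M → Fin k) (M → Fin k) ℝ) :
    box h (0 : Matrix (J → Fin k) (J → Fin k) ℝ) = 0 := by
  ext a b
  simp [box]

theorem box_add_left (h h' : Matrix (M → Fin k) (M → Fin k) ℝ)
    (c : Matrix (J → Fin k) (J → Fin k) ℝ) : box (h + h') c = box h c + box h' c := by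
  ext a b
  simp only [box, Matrix.add_apply]
  ring

theorem box_smul_left (h : Matrix (M → Fin k) (M → Fin k) ℝ) (r : ℝ)
    (c : Matrix (J → Fin k) (J → Fin k) ℝ) : box (r • h) c = r • box h c := by
  ext a b
  simp only [box, Matrix.smul_apply, smul_eq_mul]
  ring

theorem box_zero_left (c : Matrix (J → Fin k) (J → Fin k) ℝ) :
    box (0 : Matrix (M → Fin k) (M → Fin k) ℝ) c = 0 := by
  ext a b
  simp [box]

theorem box_rho (t : Equiv.Perm M) (s : Equiv.Perm J) :
    box (rho k t) (rho k s) = rho k (Equiv.sumCongr t s) := by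
  ext a b
  simp only [box, rho]
  have : b = a ∘ (Equiv.sumCongr t s) ↔
      (b ∘ Sum.inl = (a ∘ Sum.inl) ∘ t ∧ b ∘ Sum.inr = (a ∘ Sum.inr) ∘ s) := by
    constructor
    · rintro rfl
      exact ⟨rfl, rfl⟩
    · rintro ⟨h1, h2⟩
      ext z
      rcases z with m | j
      · exact congrArg Fin.val (congrFun h1 m)
      · exact congrArg Fin.val (congrFun h2 j)
  simp only [this]
  by_cases h1 : b ∘ Sum.inl = (a ∘ Sum.inl) ∘ t
  · by_cases h2 : b ∘ Sum.inr = (a ∘ Sum.inr) ∘ s
    · simp [h1, h2]
    · simp [h1, h2]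
  · simp [h1]

theorem box_mem {h : Matrix (M → Fin k) (M → Fin k) ℝ} {c : Matrix (J → Fin k) (J → Fin k) ℝ}
    (hh : h ∈ PP k M) (hc : c ∈ PP k J) : box h c ∈ PP k (M ⊕ J) := by
  induction hh using Submodule.span_induction with
  | mem x hx =>
    obtain ⟨t, rfl⟩ := hx
    induction hc using Submodule.span_induction with
    | mem y hy =>
      obtain ⟨s, rfl⟩ := hy
      rw [box_rho]
      exact rho_mem _
    | zero => rw [box_zero_right]; exact zero_mem _
    | add x y _ _ hx hy => rw [box_add_right]; exact add_mem hx hy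
    | smul r x _ hx => rw [box_smul_right]; exact Submodule.smul_mem _ _ hx
  | zero => rw [box_zero_left]; exact zero_mem _
  | add x y _ _ hx hy => rw [box_add_left]; exact add_mem hx hy
  | smul r x _ hx => rw [box_smul_left]; exact Submodule.smul_mem _ _ hx

theorem sum_elim {N : Type*} [AddCommMonoid N] (f : (M ⊕ J → Fin k) → N) :
    ∑ a, f a = ∑ a', ∑ a, f (Sum.elim a a') := by
  rw [← (Equiv.sumArrowEquivProdArrow M J (Fin k)).symm.sum_comp, Fintype.sum_prod_type,
    sum_comm]
  rfl

theorem ev_box (h : Matrix (M → Fin k) (M → Fin k) ℝ) (c : Matrix (J → Fin k) (J → Fin k) ℝ)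
    (z : M ⊕ J → Matrix (Fin k) (Fin k) ℝ) :
    ev (box h c) z = ev h (z ∘ Sum.inl) * ev c (z ∘ Sum.inr) := by
  simp only [ev_apply, sum_elim, box_apply, Fintype.prod_sum_type, Sum.elim_inl, Sum.elim_inr,
    Function.comp_apply]
  rw [mul_comm, sum_mul_sum]
  refine sum_congr rfl fun a' _ => sum_congr rfl fun a _ => ?_
  rw [sum_mul_sum]
  refine sum_congr rfl fun b' _ => sum_congr rfl fun b _ => ?_
  ring

/-- contraction with `h` -/
def ctr (h : Matrix (M → Fin k) (M → Fin k) ℝ) (c : Matrix (M ⊕ J → Fin k) (M ⊕ J → Fin k) ℝ) :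
    Matrix (J → Fin k) (J → Fin k) ℝ :=
  fun a' b' => ∑ a, ∑ b, h a b * c (Sum.elim a a') (Sum.elim b b')

theorem ip_box (h : Matrix (M → Fin k) (M → Fin k) ℝ) (c' : Matrix (J → Fin k) (J → Fin k) ℝ)
    (c : Matrix (M ⊕ J → Fin k) (M ⊕ J → Fin k) ℝ) : ip c (box h c') = ip (ctr h c) c' := by
  simp only [ip, sum_elim, box_apply, ctr, sum_mul]
  refine sum_congr rfl fun a' _ => ?_
  rw [sum_comm]
  refine sum_congr rfl fun b' _ => sum_congr rfl fun a _ => sum_congr rfl fun b _ => ?_
  ring

/-- partial trace over the first summand -/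
def ptrS (M : Type*) [Fintype M] [DecidableEq M]
    (c : Matrix (M ⊕ J → Fin k) (M ⊕ J → Fin k) ℝ) : Matrix (J → Fin k) (J → Fin k) ℝ :=
  fun a' b' => ∑ a, c (Sum.elim a a') (Sum.elim a b')

theorem ctr_eq (h : Matrix (M → Fin k) (M → Fin k) ℝ)
    (c : Matrix (M ⊕ J → Fin k) (M ⊕ J → Fin k) ℝ) : ctr h c = ptrS M (c * box hᵀ 1) := by
  ext a' b'
  simp only [ctr, ptrS, Matrix.mul_apply, sum_elim, box_apply, Matrix.transpose_apply]
  refine sum_congr rfl fun a _ => ?_
  rw [sum_eq_single b']
  · refine sum_congr rfl fun b _ => ?_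
    rw [Matrix.one_apply_eq]
    ring
  · intro b'' _ hb''
    refine sum_eq_zero fun b _ => ?_
    rw [Matrix.one_apply_ne hb'']
    ring
  · intro h; exact absurd (mem_univ _) h

end box

section ptrS

variable {k : ℕ}

/-- partial traces over `M` preserve the spans of the permutations -/
def PG (k : ℕ) (M : Type*) [Fintype M] [DecidableEq M] : Prop :=
  ∀ (n : ℕ) (c : Matrix (M ⊕ Fin n → Fin k) (M ⊕ Fin n → Fin k) ℝ), c ∈ PP k (M ⊕ Fin n) →
    ptrS M c ∈ PP k (Fin n)

theorem PG_congr {M M' : Type*} [Fintype M] [DecidableEq M] [Fintype M'] [DecidableEq M']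
    (e : M ≃ M') (h : PG k M) : PG k M' := by
  intro n c hc
  have h1 := h n (place (Equiv.sumCongr e (Equiv.refl (Fin n))).symm c) (place_mem_PP _ hc)
  have h2 : ptrS M' c = ptrS M (place (Equiv.sumCongr e (Equiv.refl (Fin n))).symm c) := by
    ext a' b'
    unfold ptrS
    rw [← (e.arrowCongr (Equiv.refl (Fin k))).sum_comp]
    refine sum_congr rfl fun a _ => ?_
    rw [place_apply]
    congr 1
    · ext z
      rcases z with m | j <;> simp [Equiv.arrowCongr]
    · ext z
      rcases z with m | j <;> simp [Equiv.arrowCongr]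
  rw [h2]
  exact h1

/-- moving the new variable -/
def mv2 (M J : Type*) : Option (M ⊕ J) ≃ Option M ⊕ J where
  toFun o := match o with
    | none => Sum.inl none
    | some (Sum.inl m) => Sum.inl (some m)
    | some (Sum.inr j) => Sum.inr j
  invFun z := match z with
    | Sum.inl none => none
    | Sum.inl (some m) => some (Sum.inl m)
    | Sum.inr j => some (Sum.inr j)
  left_inv o := by
    rcases o with _ | m | j <;> rfl
  right_inv z := by
    rcases z with (_ | m) | j <;> rfl

theorem PG_option {M : Type*} [Fintype M] [DecidableEq M] (h : PG k M) : PG k (Option M) := by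
  intro n c hc
  have h1 := h n (ptr (place (mv2 M (Fin n)).symm c)) (ptr_mem (place_mem_PP _ hc))
  have h2 : ptrS (Option M) c = ptrS M (ptr (place (mv2 M (Fin n)).symm c)) := by
    ext a' b'
    unfold ptrS
    rw [sum_ex, sum_comm]
    refine sum_congr rfl fun a _ => ?_
    rw [ptr_apply]
    refine sum_congr rfl fun z _ => ?_
    rw [place_apply]
    congr 1
    · ext z
      rcases z with (_ | m) | j <;> rfl
    · ext z
      rcases z with (_ | m) | j <;> rfl
  rw [h2]
  exact h1

theorem PG_fin (m : ℕ) : PG k (Fin m) := by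
  induction m with
  | zero =>
    intro n c hc
    have h1 := place_mem_PP (Equiv.emptySum (Fin 0) (Fin n)) hc
    have h2 : ptrS (Fin 0) c = place (Equiv.emptySum (Fin 0) (Fin n)) c := by
      ext a' b'
      unfold ptrS
      rw [Fintype.sum_unique, place_apply]
      congr 1
      · ext z
        rcases z with m | j
        · exact m.elim0
        · rfl
      · ext z
        rcases z with m | j
        · exact m.elim0
        · rfl
    rw [h2]
    exact h1
  | succ m ih => exact PG_congr (finSuccEquiv m).symm (PG_option ih)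

theorem ptrS_mem {M J : Type*} [Fintype M] [DecidableEq M] [Fintype J] [DecidableEq J]
    {c : Matrix (M ⊕ J → Fin k) (M ⊕ J → Fin k) ℝ} (hc : c ∈ PP k (M ⊕ J)) :
    ptrS M c ∈ PP k J := by
  have h0 : PG k M := PG_congr (Fintype.equivFin M).symm (PG_fin _)
  let e := (Fintype.equivFin J)
  have h1 := place_mem_PP e.symm (h0 _ (place (Equiv.sumCongr (Equiv.refl M) e) c)
    (place_mem_PP _ hc))
  have h2 : ptrS M c = place e.symm (ptrS M (place (Equiv.sumCongr (Equiv.refl M) e) c)) := by
    ext a' b'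
    rw [place_apply]
    unfold ptrS
    refine sum_congr rfl fun a _ => ?_
    rw [place_apply]
    congr 1
    · ext z
      rcases z with m | j <;> simp
    · ext z
      rcases z with m | j <;> simp
  rw [h2]
  exact h1

theorem ctr_mem {M J : Type*} [Fintype M] [DecidableEq M] [Fintype J] [DecidableEq J]
    {h : Matrix (M → Fin k) (M → Fin k) ℝ} (hh : h ∈ PP k M)
    {c : Matrix (M ⊕ J → Fin k) (M ⊕ J → Fin k) ℝ} (hc : c ∈ PP k (M ⊕ J)) :
    ctr h c ∈ PP k J := by
  rw [ctr_eq]
  exact ptrS_mem (mul_mem_PP hc (box_mem (transpose_mem_PP hh) one_mem_PP))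

end ptrS

/-! ### the conductor as a tensor -/

section hT

variable {k : ℕ}

/-- the conductor as a tensor -/
def hT (c : Equiv.Perm (Fin k × Fin k)) : Matrix (MM k → Fin k) (MM k → Fin k) ℝ :=
  ∑ π : Equiv.Perm (Fin k × Fin k), ((Equiv.Perm.sign π : ℤ) : ℝ) • rho k (gam c π)

theorem ev_hT (c : Equiv.Perm (Fin k × Fin k)) : ev (hT c) = hh c := by
  ext z
  unfold hT hh
  rw [map_sum, Finset.sum_apply]
  refine sum_congr rfl fun π _ => ?_
  rw [map_smul, ev_rho]
  rfl

theorem hT_ne_zero (c : Equiv.Perm (Fin k × Fin k)) : hT c ≠ 0 := by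
  intro h
  apply hh_ne_zero c
  rw [← ev_hT, h, map_zero]

theorem hT_mem (c : Equiv.Perm (Fin k × Fin k)) : hT c ∈ PP k (MM k) :=
  Submodule.sum_mem _ fun π _ => Submodule.smul_mem _ _ (rho_mem _)

theorem box_hT_mem (hk : 1 ≤ k) {c : Equiv.Perm (Fin k × Fin k)} (hc : Trans c) {J : Type*}
    [Fintype J] [DecidableEq J] {d : Matrix (J → Fin k) (J → Fin k) ℝ} (hd : d ∈ PP k J) :
    box (hT c) d ∈ Cy k (MM k ⊕ J) := by
  induction hd using Submodule.span_induction with
  | mem x hx =>
    obtain ⟨s, rfl⟩ := hx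
    rw [mem_Cy]
    have h1 := good hk hc J s
    convert h1 using 1
    ext z
    rw [ev_box, ev_hT, ev_rho]
  | zero => rw [box_zero_right]; exact zero_mem _
  | add x y _ _ hx hy => rw [box_add_right]; exact add_mem hx hy
  | smul r x _ hx => rw [box_smul_right]; exact Submodule.smul_mem _ _ hx

end hT

end Pool.Agent.W430.CC
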